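import Pool.Agent.helper58.ZB.SpecN

set_option autoImplicit false

namespace Pool.Agent.GB

open Pool.Agent.helper58.DC Pool.Agent.DI Pool.Agent.GR Pool.Agent.OB Pool.Agent.DR Pool.Agent.FI Pool.Agent.FI3 Pool.Agent.FI4 Pool.Agent.LE Pool.Agent.BR

theorem LXQ : LXQ_stmt := by
  intro p hp G _ _
  have hF : Fact p.Prime := ⟨hp⟩
  have hn : Nat.card G ≠ 0 := Nat.card_pos.ne'
  obtain ⟨a, n', hn', hcard⟩ := Nat.exists_eq_pow_mul_and_not_dvd hn p hp.ne_one
  have hcop : p.Coprime n' := (Nat.Prime.coprime_iff_not_dvd hp).2 hn'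
  have hn0 : 0 < n' := by
    rcases Nat.eq_zero_or_pos n' with h | h
    · exfalso
      rw [h] at hn'
      exact hn' (dvd_zero p)
    · exact h
  refine ⟨(p ^ a) ^ Nat.totient n', ?_, ?_⟩
  · intro v hv
    have h1 : orderOf v ∣ p ^ a * n' := by
      rw [← hcard]
      exact orderOf_dvd_natCard v
    have h2 : (orderOf v).Coprime (p ^ a) := by
      have h3 : ¬ p ∣ orderOf v := hv
      exact (((Nat.Prime.coprime_iff_not_dvd hp).2 h3).pow_left a).symm
    have h3 : orderOf v ∣ n' := h2.dvd_of_dvd_mul_left h1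
    have h4 : (p ^ a) ^ Nat.totient n' ≡ 1 [MOD n'] := Nat.ModEq.pow_totient (hcop.pow_left a)
    have h5 : (p ^ a) ^ Nat.totient n' ≡ 1 [MOD orderOf v] := h4.of_dvd h3
    have h6 := (pow_eq_pow_iff_modEq (x := v)).2 h5
    rw [h6, pow_one]
  · rintro y hy
    obtain ⟨k, hk⟩ := hy
    have h1 : orderOf y ∣ p ^ a * n' := by
      rw [← hcard]
      exact orderOf_dvd_natCard y
    have h2 : (orderOf y).Coprime n' := by
      exact Nat.Coprime.coprime_dvd_left (orderOf_dvd_of_pow_eq_one hk) (hcop.pow_left k)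
    have h3 : orderOf y ∣ p ^ a := h2.dvd_of_dvd_mul_right h1
    have h4 : p ^ a ∣ (p ^ a) ^ Nat.totient n' := dvd_pow_self _ (Nat.totient_pos.2 hn0).ne'
    exact orderOf_dvd_iff_pow_eq_one.1 (h3.trans h4)

end Pool.Agent.GB
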