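import Pool.Agent.helper58.ZB.SpecN

set_option autoImplicit false

namespace Pool.Agent.GB

open Pool.Agent.helper58.DC Pool.Agent.DI Pool.Agent.GR Pool.Agent.OB Pool.Agent.DR Pool.Agent.FI Pool.Agent.FI3 Pool.Agent.FI4 Pool.Agent.LE Pool.Agent.BR

theorem TSB_type {H : Type} [Group H] [Finite H] (q : ℕ) (hq : (Subgroup.center H).index ∣ q) :
    ∃ T : Subgroup H, ∀ c : H, c ∈ T ↔ ∃ d : H, d ^ (q ^ 2) = c := by
  obtain ⟨j, hj⟩ := hq
  have hcomm : ∀ a b : Subgroup.center H, Commute a b := by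
    intro a b
    exact Subtype.ext ((Subgroup.mem_center_iff.1 b.2 (a : H)))
  let f : H →* H :=
    { toFun := fun x => x ^ (q ^ 2)
      map_one' := one_pow _
      map_mul' := by
        intro x y
        have h1 : ∀ x : H, x ^ (q ^ 2) = (((MonoidHom.transferCenterPow H x) ^ (j * q) : Subgroup.center H) : H) := by
          intro x
          rw [Subgroup.coe_pow, MonoidHom.transferCenterPow_apply, ← pow_mul, hj]
          congr 1
          ring
        rw [h1, h1, h1, map_mul, (hcomm _ _).mul_pow, Subgroup.coe_mul] }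
  refine ⟨f.range, ?_⟩
  intro c
  constructor
  · rintro ⟨d, hd⟩
    exact ⟨d, hd⟩
  · rintro ⟨d, hd⟩
    exact ⟨d, hd⟩

theorem TSB : TSB_stmt := by
  intro G _ _ D q hq
  have h1 : (Subgroup.center D) = (D ⊓ cz D).subgroupOf D := by
    ext z
    rw [Subgroup.mem_center_iff, Subgroup.mem_subgroupOf]
    constructor
    · intro h
      refine ⟨z.2, Subgroup.mem_centralizer_iff.2 ?_⟩
      intro y hy
      exact congrArg Subtype.val (h ⟨y, hy⟩)
    · intro h g
      exact Subtype.ext (Subgroup.mem_centralizer_iff.1 h.2 (g : G) g.2)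
  have h2 : (Subgroup.center D).index ∣ q := by
    rw [h1]
    exact hq
  obtain ⟨T, hT⟩ := TSB_type q h2
  refine ⟨T.map D.subtype, ?_⟩
  intro c
  constructor
  · rintro ⟨t, ht, rfl⟩
    obtain ⟨d, hd⟩ := (hT t).1 ht
    refine ⟨d, d.2, ?_⟩
    rw [← hd]
    rfl
  · rintro ⟨d, hd, rfl⟩
    exact ⟨(⟨d, hd⟩ : D) ^ (q ^ 2), (hT _).2 ⟨⟨d, hd⟩, rfl⟩, rfl⟩

end Pool.Agent.GB
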