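import Pool.Agent.helper7.ZB.FinZ
import Pool.Agent.helper59.ZB.AllL

/-!
# MP_baa4d7_al, THEOREM ZB: the final theorem without hypotheses
-/

set_option autoImplicit false

namespace Pool.Agent.ZBS

open Pool.Agent.helper58.DC

/-- THEOREM ZB, (b): the sum over `d` of the alternating sums is zero. -/
theorem dade (p : ℕ) (hpr : p.Prime) (M : Ideal (integralClosure ℤ ℂ)) (hM : M.IsMaximal)
    (hp : (p : integralClosure ℤ ℂ) ∈ M) (G : Type) [Group G] [Finite G] (hG : IsOp p (⊤ : Subgroup G) ⊥)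
    (χ : G → ℂ) (hχ : χ ∈ Irr G) (D : Subgroup G) (hD : Pool.Agent.MAP.DefectGroup p M χ D) (a r : ℕ) (hL : LargeCentre p a r D)
    (E A : Type) [Group E] [Group A] [Finite E] (X : Extension G E A) (s : A) (n : ℕ)
    (hsn : s ^ n ∈ Pool.Agent.BQ.AI X M χ) (hpn : ¬ p ∣ n)
    (hs : ∀ a ∈ Pool.Agent.BQ.AB X M χ, ∃ k : ℤ, s ^ k * a ∈ Pool.Agent.BQ.AI X M χ) (U : Subgroup A) :
    ∑ᶠ d : ℤ, altSum X p M χ d U = 0 :=
  dadeX Pool.Agent.GB.AllG.gZHE Pool.Agent.GB.AllL.lBLP p hpr M hM hp G hG χ hχ D hD a r hL E A X s n hsn hpn hs U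

/-- THEOREM ZB, (a): the bound for every `G`. -/
theorem bound (p : ℕ) (hpr : p.Prime) (M : Ideal (integralClosure ℤ ℂ)) (hM : M.IsMaximal)
    (hp : (p : integralClosure ℤ ℂ) ∈ M) (G : Type) [Group G] [Finite G]
    (χ : G → ℂ) (hχ : χ ∈ Irr G) (D : Subgroup G) (hD : Pool.Agent.MAP.DefectGroup p M χ D) (a r : ℕ) (Z : Subgroup G)
    (hZ : CentralRank p a r D Z) :
    1 ≤ Pool.Agent.FIV.brauerNumber p M χ ⊤ ∧ Pool.Agent.FIV.brauerNumber p M χ ⊤ ≤ p ^ boundExp p a r :=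
  boundX Pool.Agent.GB.AllL.lBDP p hpr M hM hp G χ hχ D hD a r Z hZ

end Pool.Agent.ZBS
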