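import Mathlib
import Pool.Agent.helper37.NA.Spec

/-!
# MP_baa4d7_al, THEOREM ZB: blocks with defect groups `D` with a large centre of bounded rank and bounded index (D NONABELIAN), block T = the induction scheme

THEOREM ZB. `p` odd, `Z ≤ Z(D)`, `|D : Z| ≤ p ^ a`, `Z` of rank at most `r`, the exponent of `Z` at least `p ^ N(a, r)`. For every finite group `G` with `O_p(G) = 1` and every block `B` of `G` with defect group `D` the sum over all `d` of the alternating sums of the numbers of characters is `0`. (For all `G`, without condition on the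
exponent: `l(B) ≤ p ^ C(a, r)`.) It contains BOUND-R (`D` abelian, `a = 0`) and, qualitatively, THEOREM NA (`r = 1`).

METHOD: the scheme of THEOREM NA (`helper37/NA/Spec`) with a unit class `(z, x)` replaced by a DEFECT GROUP `(Q, y)` (`DefL`) in the class `KZ`, and `Eg p e z` by `EQ p s Q` = the elements of order dividing `p` which are `p ^ s`-th powers in `Q`. `κ = (a, r, s, w, k)`: `Q` has a central subgroup `Z` with `|Q| ≤ p ^ a |Z|`, at most `p ^ r` elements of order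
dividing `p`, and `|Om (s - a) Z| = |Om (s + w) Z| = p ^ k` (a gap of the invariants of `Z` below `p ^ s` and no invariant between `p ^ (s - a)` and `p ^ (s + w)`), `Om p j Z = {y | y ^ p = 1, y a p ^ j-th power in Z}`. Then `EQ Q = Om s Z` (ZE1), and `Q₁ ≤ Q`, both in `KZ`, implies `EQ Q₁ = EQ Q` (ZE2): this is the only uniqueness used.
Heredity is available only for LOCAL subgroups (`L ⊓ cz Q ≤ K`): ZHE. Dictionary for the ports: `Ucl p e m M L ψ z x` becomes `DefL p M L ψ Q y` with `KZ p κ Q`; `Eg p e z` becomes `EQ p κ.s Q`; `BE`, `lE`, `MNc` become `BQ`, `lQ`, `MZc`; NUH becomes ZUH (with the hypothesis `L ⊓ cz Q ≤ K`); NUE: ZUE; NUB: ZUB; NEG, NEC: ZE1, ZE2; NTK: ZTK.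

RULES FOR ROWS. File `Pool/Agent/<seat>/ZB/XXX.lean` with

  import Pool.Agent.helper7.ZB.SpecT
  set_option autoImplicit false
  namespace Pool.Agent.ZB
  open Pool.Agent.helper58.DC Pool.Agent.DI Pool.Agent.GR Pool.Agent.OB Pool.Agent.DR Pool.Agent.FI Pool.Agent.FI3 Pool.Agent.FI4 Pool.Agent.FI4I Pool.Agent.LE Pool.Agent.L5 Pool.Agent.NAB
  theorem XXX (hYYY : YYY_stmt) ... : XXX_stmt := ...
  end Pool.Agent.ZB

auxiliary lemmas prefixed `XXX_`, no sorry, no double quotes in the file, no `convert`, no `congr!`. The rows named in the docstring are hypotheses; ALL rows of the earlier specs (GR, DI, DR, OB, FI, FI3, FI4, LE, L5, NA = NAB: all proved, hypothesis-free versions in `helper37/NA/All.lean`) may be added as further hypotheses (no circles).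
If a name is ambiguous write it in full (for example `Pool.Agent.FI.TRN_stmt`). `cjS`, `cjF`: `helper58/FI/DefsC` (`mem_cjS`, `cjF_apply`); `cjS g P` unfolds to `P.map (MulAut.conj g).toMonoidHom`, `cjF g ψ` to `funMap (MulAut.conj g) ψ` (as in CJG). Conjugation facts: FEQ (`helper58/FI/SpecC`), CJG (`helper22/FI/SpecA`).
-/

set_option autoImplicit false

namespace Pool.Agent.ZB

open Pool.Agent.helper58.DC Pool.Agent.DI Pool.Agent.GR Pool.Agent.OB Pool.Agent.DR Pool.Agent.FI Pool.Agent.FI3 Pool.Agent.FI4 Pool.Agent.FI4I Pool.Agent.LE Pool.Agent.L5 Pool.Agent.NAB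

/-- The parameters. -/
structure Pm where
  a : ℕ
  r : ℕ
  s : ℕ
  w : ℕ
  k : ℕ

section

variable {G : Type} [Group G]

/-- The elements of order dividing `p` which are `p ^ j`-th powers of elements of `Z`. -/
def Om (p j : ℕ) (Z : Subgroup G) : Set G := {y | y ^ p = 1 ∧ ∃ z ∈ Z, z ^ p ^ j = y}

/-- The group `E` of `Q`. -/
def EQ (p s : ℕ) (Q : Subgroup G) : Subgroup G := Subgroup.closure (Om p s Q)

/-- The class of `p`-groups: `Q` has a central subgroup `Z` of index at most `p ^ a` and rank at most `r` with the same number `p ^ k > 1` of elements of order dividing `p` among the `p ^ (s - a)`-th and among the `p ^ (s + w)`-th powers. -/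
def KZ (p : ℕ) (κ : Pm) (Q : Subgroup G) : Prop :=
  κ.a ≤ κ.s ∧ 1 ≤ κ.k ∧ IsPGroup p Q ∧ ∃ Z ≤ Q, (∀ z ∈ Z, ∀ x ∈ Q, z * x = x * z) ∧ Nat.card Q ≤ p ^ κ.a * Nat.card Z ∧
    (Om p 0 Z).ncard ≤ p ^ κ.r ∧ (Om p (κ.s - κ.a) Z).ncard = p ^ κ.k ∧ (Om p (κ.s + κ.w) Z).ncard = p ^ κ.k

/-- The characters of the subgroup `K` in the blocks `b` of `K` with `b ^ L` the block of `ψ` which have a defect group `Q` in `KZ` with `EQ Q = E`. -/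
def BQ (p : ℕ) (κ : Pm) (M : Ideal (integralClosure ℤ ℂ)) (L K E : Subgroup G) (ψ : G → ℂ) : Set (G → ℂ) :=
  {η | η ∈ IrrOn K ∧ SB M L η ψ ∧ ∃ (Q : Subgroup G) (y : G), DefL p M K η Q y ∧ KZ p κ Q ∧ EQ p κ.s Q = E}

/-- The number of the irreducible Brauer characters in these blocks. -/
noncomputable def lQ (p : ℕ) (κ : Pm) (M : Ideal (integralClosure ℤ ℂ)) (L K E : Subgroup G) (ψ : G → ℂ) : ℂ :=
  ∑ᶠ η ∈ BQ p κ M L K E ψ, EE p K η η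

/-- A unit class `cls L (z * x)` of the block of `ψ` in `L`, `z` of order `p ^ e`; the commutator subgroups of the defect groups have exponent dividing `p ^ a`. -/
structure Uq (p e a : ℕ) (M : Ideal (integralClosure ℤ ℂ)) (L : Subgroup G) (ψ : G → ℂ) (z x : G) : Prop where
  pe : PEl p z
  re : PReg p x
  co : z * x = x * z
  zm : z ∈ L
  xm : x ∈ L
  od : orderOf z = p ^ e
  ne : ¬ InM M (cc ψ (cls L (z * x)))
  cx : ∀ (D : Subgroup G) (y : G), DefL p M L ψ D y → ∀ d ∈ ⁅D, D⁆, d ^ p ^ a = 1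

end

/-- The claim of the main induction for the group `G`: `l(B)` is the number of the irreducible Brauer characters of the block `b_E` of `nz E`. -/
def MZc (p : ℕ) (κ : Pm) (M : Ideal (integralClosure ℤ ℂ)) (G : Type) [Group G] : Prop :=
  ∀ χ ∈ Irr G, ∀ (D : Subgroup G) (x : G), DefL p M (⊤ : Subgroup G) χ D x → KZ p κ D →
    Le p M (⊤ : Subgroup G) χ = lQ p κ M (⊤ : Subgroup G) (nz (EQ p κ.s D)) (EQ p κ.s D) χ

/-! ## 0. Interface with the blocks P (Brauer pairs, helper68) and R (the bound) -/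

/-- **ZHE** (block P, helper68). Heredity: the defect groups `Q` of the blocks `b` of a local subgroup `K` with `b ^ L` the block of `ψ` are, up to conjugation in `L`, contained in the defect group `D` of `ψ` and centric in it. -/
def ZHE_stmt : Prop :=
  ∀ (p : ℕ) (M : Ideal (integralClosure ℤ ℂ)), Setup p M → ∀ (G : Type) [Group G] [Finite G] (L K : Subgroup G), K ≤ L →
    ∀ ψ ∈ IrrOn L, ∀ (D : Subgroup G) (x : G), DefL p M L ψ D x → ∀ η ∈ IrrOn K, SB M L η ψ →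
    ∀ (Q : Subgroup G) (y : G), DefL p M K η Q y → L ⊓ cz Q ≤ K →
    ∃ l ∈ L, cjS l Q ≤ D ∧ D ⊓ cz (cjS l Q) ≤ cjS l Q

/-- **ZQD** (block P, helper68). If all conjugates of `D` which contain `Q` are contained in `K` then `Q` is a defect group of the block of `ψ`. -/
def ZQD_stmt : Prop :=
  ∀ (p : ℕ) (M : Ideal (integralClosure ℤ ℂ)), Setup p M → ∀ (G : Type) [Group G] [Finite G] (L K : Subgroup G), K ≤ L →
    ∀ ψ ∈ IrrOn L, ∀ (D : Subgroup G) (x : G), DefL p M L ψ D x → ∀ η ∈ IrrOn K, SB M L η ψ →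
    ∀ (Q : Subgroup G) (y : G), DefL p M K η Q y → L ⊓ cz Q ≤ K → (∀ l ∈ L, cjS l Q ≤ D → cjS l⁻¹ D ≤ K) →
    Nat.card Q = Nat.card D

/-- **BDK** (not a row; a HYPOTHESIS of ZMN, ZFN, ZFD, given by block R). The bound `l ≤ p ^ B` for all blocks with defect group in `KZ`. -/
def BDK (p : ℕ) (κ : Pm) (M : Ideal (integralClosure ℤ ℂ)) (B : ℕ) : Prop :=
  ∀ (G : Type) [Group G] [Finite G] (L : Subgroup G), ∀ ψ ∈ IrrOn L, ∀ (D : Subgroup G) (y : G), DefL p M L ψ D y → KZ p κ D →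
    ∃ l : ℕ, Le p M L ψ = l ∧ 1 ≤ l ∧ l ≤ p ^ B

/-! ## 1. Group theory -/

/-- **ZE1** (short to medium; pure). The group `E = EQ p s Q`. Proof: let `Z` be as in `KZ`. (A) `Om p (s + w) Z ⊆ Om p s Z ⊆ Om p (s - a) Z` (`z ^ p ^ (s + w) = (z ^ p ^ w) ^ p ^ s`), the outer sets have the same finite number `p ^ k` of elements, so all three are equal. (B) `Om p s Q = Om p s Z`: `Z` is normal in `Q` and its index in `Q` is a power `p ^ b`, `b ≤ a`, so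
`x ^ p ^ a ∈ Z` for `x ∈ Q` (`Subgroup.pow_index_mem` for `Z.subgroupOf Q`), `x ^ p ^ s = (x ^ p ^ a) ^ p ^ (s - a)`, so `Om p s Q ⊆ Om p (s - a) Z = Om p s Z`. (C) `Om p s Z` is closed under products and inverses (`Z` is commutative): it is the carrier of `EQ p s Q` (`Subgroup.closure_induction`). All items follow: (1) (B), (C); (2) ncard; `k ≥ 1`; (3) (A); (4) `EQ ≤ Z`
is central in `Q`; `cz Q ≤ cz (EQ)` as `EQ ≤ Q`; for `n ∈ nz Q` conjugation by `n` maps `Om p s Q` onto itself. -/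
def ZE1_stmt : Prop :=
  ∀ (p : ℕ), p.Prime → ∀ (κ : Pm) (G : Type) [Group G] [Finite G] (Q : Subgroup G), KZ p κ Q →
    (∀ y, y ∈ EQ p κ.s Q ↔ y ^ p = 1 ∧ ∃ x ∈ Q, x ^ p ^ κ.s = y) ∧
    (Nat.card (EQ p κ.s Q) = p ^ κ.k ∧ EQ p κ.s Q ≤ Q ∧ EQ p κ.s Q ≠ ⊥ ∧ IsPGroup p (EQ p κ.s Q) ∧
      ∀ b ∈ EQ p κ.s Q, ∀ c ∈ EQ p κ.s Q, b * c = c * b) ∧
    (∀ y ∈ EQ p κ.s Q, ∃ z ∈ Q, (∀ x ∈ Q, z * x = x * z) ∧ z ^ p ^ (κ.s + κ.w) = y) ∧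
    Q ≤ cz (EQ p κ.s Q) ∧ cz Q ≤ cz (EQ p κ.s Q) ∧ cz (EQ p κ.s Q) ≤ nz (EQ p κ.s Q) ∧ nz Q ≤ nz (EQ p κ.s Q)

/-- **ZE2** (short; pure; from ZE1). Proof: (1) `EQ Q₁ ≤ EQ Q` by ZE1 (1), and both have `p ^ k` elements. (2) heredity: for `Z` as in `KZ` for `D`: `Z ≤ D ⊓ cz D ≤ D ⊓ cz Q ≤ Q`, `Z` is central in `Q`, `|Q| ≤ |D|`. (3) conjugation is an automorphism (`Om p j (cjS g Z)` is the image of `Om p j Z`, `Set.ncard_image_of_injective`). -/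
def ZE2_stmt : Prop :=
  ∀ (p : ℕ), p.Prime → ∀ (κ : Pm) (G : Type) [Group G] [Finite G] (Q : Subgroup G), KZ p κ Q →
    (∀ Q₁ : Subgroup G, KZ p κ Q₁ → Q₁ ≤ Q → EQ p κ.s Q₁ = EQ p κ.s Q) ∧
    (∀ Q₁ : Subgroup G, Q₁ ≤ Q → Q ⊓ cz Q₁ ≤ Q₁ → KZ p κ Q₁) ∧
    ∀ g : G, KZ p κ (cjS g Q) ∧ EQ p κ.s (cjS g Q) = cjS g (EQ p κ.s Q)

/-- **ZE3** (short; pure). The commutator subgroup. Proof: in the type `Q` the centre contains `Z`, so its index divides a power `p ^ b`, `b ≤ a`; `MonoidHom.transferCenterPow` (Mathlib: `x ↦ x ^ (center).index` is a homomorphism to the commutative group `center`) is trivial on the commutator subgroup, so `d ^ p ^ a = 1` for `d ∈ ⁅⊤, ⊤⁆`; back to `Q` by `Subgroup.map_commutator`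
(for `Q.subtype`). -/
def ZE3_stmt : Prop :=
  ∀ (p : ℕ), p.Prime → ∀ (κ : Pm) (G : Type) [Group G] [Finite G] (Q : Subgroup G), KZ p κ Q → ∀ d ∈ ⁅Q, Q⁆, d ^ p ^ κ.a = 1

/-- **ZGP** (short to medium; pure). The gap. Proof: `Om p j Z` is the set of elements of a subgroup of the finite `p`-group `Z` (`Z` is commutative), so `|Om p j Z| = p ^ K j`; `K` is not increasing in `j` (`Om p (j + 1) Z ⊆ Om p j Z`), `K 0 ≤ r`, and `1 ≤ K j` for `j ≤ r (a + w)`: if `z ^ p ^ (r (a + w)) ≠ 1` has order `p ^ (n + 1)` then `z ^ p ^ (r (a + w) + n)` has order `p`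
and is a `p ^ j`-th power. Among the `r + 1` numbers `K (i (a + w))`, `i = 0, .., r`, in `{1, .., r}`, not increasing, there are two consecutive equal ones: `K (i (a + w)) = K ((i + 1) (a + w))`. `s = i (a + w) + a`, `k` this number. -/
def ZGP_stmt : Prop :=
  ∀ (p a r w : ℕ), p.Prime → ∀ (G : Type) [Group G] [Finite G] (D Z : Subgroup G), IsPGroup p D → Z ≤ D →
    (∀ z ∈ Z, ∀ x ∈ D, z * x = x * z) → Nat.card D ≤ p ^ a * Nat.card Z → (Om p 0 Z).ncard ≤ p ^ r →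
    (∃ z ∈ Z, z ^ p ^ (r * (a + w)) ≠ 1) → ∃ κ : Pm, κ.a = a ∧ κ.r = r ∧ κ.w = w ∧ KZ p κ D

/-! ## 2. Defect groups in `KZ` -/

/-- **ZUB** (short; from SBI, CJG; compare NUB). (1) `ne`, `min` of `DefL` by SBI (2) (`x ∈ L` and `y ∈ L`). (2) CJG (4). (3) (2) for `g = l`: `cjS l L = L`, and `cjF l ψ = ψ` as `ψ ∈ IrrOn L` is a class function of `L` which vanishes outside `L`. -/
def ZUB_stmt : Prop :=
  ∀ (p : ℕ) (M : Ideal (integralClosure ℤ ℂ)), Setup p M → ∀ (G : Type) [Group G] [Finite G] (L : Subgroup G) (ψ : G → ℂ)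
    (D : Subgroup G) (x : G), DefL p M L ψ D x →
    (∀ ψ' : G → ℂ, SB M L ψ ψ' → DefL p M L ψ' D x) ∧
    (∀ g : G, DefL p M (cjS g L) (cjF g ψ) (cjS g D) (g * x * g⁻¹)) ∧
    (ψ ∈ IrrOn L → ∀ l ∈ L, DefL p M L ψ (cjS l D) (l * x * l⁻¹))

/-- **ZUE** (short; from DUN, ZE2). Two defect groups of the same block. DUN (1), ZE2 (3). -/
def ZUE_stmt : Prop :=
  ∀ (p : ℕ) (κ : Pm) (M : Ideal (integralClosure ℤ ℂ)), Setup p M → ∀ (G : Type) [Group G] [Finite G] (K : Subgroup G),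
    ∀ η ∈ IrrOn K, ∀ (Q : Subgroup G) (y : G) (Q' : Subgroup G) (y' : G), DefL p M K η Q y → DefL p M K η Q' y' → KZ p κ Q →
    ∃ h ∈ K, Q' = cjS h Q ∧ EQ p κ.s Q' = cjS h (EQ p κ.s Q) ∧ KZ p κ Q'

/-- **ZUH** (short; from ZHE, ZE2). Heredity. Proof: ZHE: `l ∈ L`, `Q₁ = cjS l Q ≤ D`, `D ⊓ cz Q₁ ≤ Q₁`; ZE2 (2): `KZ Q₁`; ZE2 (1): `EQ Q₁ = EQ D`; ZE2 (3) for `l⁻¹`: `KZ Q`, `EQ Q₁ = cjS l (EQ Q)`. -/
def ZUH_stmt : Prop :=
  ∀ (p : ℕ) (κ : Pm) (M : Ideal (integralClosure ℤ ℂ)), Setup p M → ∀ (G : Type) [Group G] [Finite G] (L K : Subgroup G), K ≤ L →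
    ∀ ψ ∈ IrrOn L, ∀ (D : Subgroup G) (x : G), DefL p M L ψ D x → KZ p κ D → ∀ η ∈ IrrOn K, SB M L η ψ →
    ∀ (Q : Subgroup G) (y : G), DefL p M K η Q y → L ⊓ cz Q ≤ K →
    KZ p κ Q ∧ ∃ l ∈ L, cjS l Q ≤ D ∧ EQ p κ.s D = cjS l (EQ p κ.s Q)

/-- **ZUX** (short; PORT of NUX, `helper26/NA/NUX.lean`: the proof does not use the unit class; from CFA, NFV, EXB, TRN). The induced block exists. Proof: `H = L ⊓ nz E`, `K = H ⊓ cz E = L ⊓ cz E` (`cz E ≤ nz E`), `E ≤ H`. CFA (1) for `K ≤ H ≤ nz K`: `ψ₀ ∈ IrrOn K`, `OverE K H η ψ₀ n`, `n > 0`. NFV (`P = E`, `N = H`): `SB M H η ψ₀`. EXB for `L`, `Q = E`: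
`ψ ∈ IrrOn L`, `SB M L ψ₀ ψ`. TRN: `SB M L η ψ₀`, so `SB M L η ψ`. -/
def ZUX_stmt : Prop :=
  ∀ (p : ℕ) (M : Ideal (integralClosure ℤ ℂ)), Setup p M → ∀ (G : Type) [Group G] [Finite G] (L E : Subgroup G), IsPGroup p E → E ≤ L →
    ∀ η ∈ IrrOn (L ⊓ nz E), ∃ ψ ∈ IrrOn L, SB M L η ψ

/-- **ZXU** (short; from ZUH, ZE1, ZE2, DEX, DGL, EXB, CNTL, TRN; compare NXU, `helper16/NA/NXU.lean`). Existence of the block of `L ⊓ nz E`. Proof: `E = EQ p s D`; `D ≤ H = L ⊓ nz E` (ZE1 (4), `DefL.le`), `cz D ≤ nz E`, so `H ⊓ cz D = L ⊓ cz D`. DGL: `θ ∈ IrrOn (L ⊓ cz D)`, `SB M L θ ψ`. EXB for `L := H`, `Q := D`: `η ∈ IrrOn H`, `SB M H θ η`; TRN: `SB M L η ψ`.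
DEX: `DefL p M H η Q y`. CNTL (`L := H`, `R := D`): `h ∈ H`, `cjS h D ≤ Q`; `cjS h E = E` (`h ∈ nz E`), so `E ≤ Q` and `L ⊓ cz Q ≤ L ⊓ cz E ≤ H`. ZUH: `KZ Q` and `l ∈ L` with `cjS l Q ≤ D`, so `|Q| = |D|`, `Q = cjS h D`, and `EQ Q = cjS h E = E` (ZE2 (3)). -/
def ZXU_stmt : Prop :=
  ∀ (p : ℕ) (κ : Pm) (M : Ideal (integralClosure ℤ ℂ)), Setup p M → ∀ (G : Type) [Group G] [Finite G] (L : Subgroup G),
    ∀ ψ ∈ IrrOn L, ∀ (D : Subgroup G) (x : G), DefL p M L ψ D x → KZ p κ D →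
    ∃ η : G → ℂ, η ∈ BQ p κ M L (L ⊓ nz (EQ p κ.s D)) (EQ p κ.s D) ψ

/-- **ZQU** (short to medium; from ZHE, ZQD, ZUB, ZUH, NQ5 (of NA), ZE1, ZE2, TRN; compare NQU, `helper58/NA/NQU.lean`). Uniqueness. Proof: `H = L ⊓ nz E`. CLAIM: if `η ∈ BQ` with `(Q, y)` then there is `l ∈ L` with `cjS l Q = D`. `E = EQ Q`, so `L ⊓ cz Q ≤ H` (ZE1 (4)); if `l ∈ L` and `cjS l Q ≤ D` then `cjS l E = EQ (cjS l Q) = EQ D` (ZE2), `D ≤ cz (EQ D)`, so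
`cjS l⁻¹ D ≤ cz E ≤ nz E`, and `cjS l⁻¹ D ≤ L`: it is in `H`. ZQD: `|Q| = |D|`; ZHE: `l ∈ L`, `cjS l Q ≤ D`, so equal. Let `η, η' ∈ BQ` with `(Q, y)`, `(Q', y')`, `cjS l Q = D = cjS l' Q'`, `n = l'⁻¹ l`: `cjS n Q = Q'`, so `cjS n E = EQ Q' = E`, `n ∈ nz E`, `n ∈ H`. ZUB (3) for `n⁻¹`: `DefL p M H η' Q _`. `L ⊓ nz Q ≤ H` (ZE1 (4)). NQ5: `SB M H η η'`.
So `BQ ⊆ Bl M H η`; conversely `η' ∈ Bl M H η`: `SB M L η' η` (TRN), so `SB M L η' ψ`, and ZUB (1). -/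
def ZQU_stmt : Prop :=
  ∀ (p : ℕ) (κ : Pm) (M : Ideal (integralClosure ℤ ℂ)), Setup p M → ∀ (G : Type) [Group G] [Finite G] (L E : Subgroup G),
    ∀ ψ ∈ IrrOn L, ∀ (D : Subgroup G) (x : G), DefL p M L ψ D x → KZ p κ D → ∀ η ∈ BQ p κ M L (L ⊓ nz E) E ψ,
    BQ p κ M L (L ⊓ nz E) E ψ = Bl M (L ⊓ nz E) η ∧ lQ p κ M L (L ⊓ nz E) E ψ = Le p M (L ⊓ nz E) η

/-! ## 3. Block T: transfer to subgroups as types, and the toggle -/

/-- **ZTK** (short to medium; from TR2, TR3; compare NTK, `helper43/NA/NTK.lean`, and `RTN`, item `dfa`, `Pool/Agent/*/FI4/RTN.lean`). Transfer to the type `N`. Proof: (1) field by field: `PReg` and `Cz`, `pp` by TR3, `cls (H.subgroupOf N) y = rN N (cls H y)` (TR2 (3)), `cc` by TR2 (1); for `min` every `y' ∈ H` is in `N`. (2), (3) coercion: `Om p j (Z.subgroupOf N)` is the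
preimage of `Om p j Z` (`Z ≤ N`), `Z' ≤ Q.subgroupOf N` is `Z.subgroupOf N` for `Z = Z'.map N.subtype ≤ Q`; cardinalities by TR3. -/
def ZTK_stmt : Prop :=
  ∀ (p : ℕ) (κ : Pm) (M : Ideal (integralClosure ℤ ℂ)), p.Prime → ∀ (G : Type) [Group G] [Finite G] (N : Subgroup G),
    (∀ H ≤ N, ∀ η : G → ℂ, (∀ x, x ∉ N → η x = 0) → ∀ Q ≤ N, ∀ y : N,
      (DefL p M (H.subgroupOf N) (rN N η) (Q.subgroupOf N) y ↔ DefL p M H η Q (y : G))) ∧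
    (∀ Q ≤ N, (KZ p κ (Q.subgroupOf N) ↔ KZ p κ Q)) ∧
    ∀ Q ≤ N, EQ p κ.s (Q.subgroupOf N) = (EQ p κ.s Q).subgroupOf N

/-- **ZTI** (short to medium; PORT of NTI, `helper43/NA/NTI.lean`; from ZTK, ZE1, TR1, TR2, TR3, TR4, TRE of L5, TPR, B2). The claim for the type `N` in terms of functions on `G`. Proof: as NTI: `MZc` for `rN N φ`, `Q.subgroupOf N`, `⟨y, _⟩` (ZTK, `⊤ = N.subgroupOf N`). Left side: TRE. Right side: `nz (EQ (Q.subgroupOf N)) = (N ⊓ nz (EQ Q)).subgroupOf N` (ZTK (3), TR3), and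
`η ↦ rN N η` is a bijection from `BQ M N (N ⊓ nz E) E φ` onto `BQ M ⊤ .. (rN N φ)` (TR1, TR2 (2), ZTK; every subgroup `Q'` of the type `N` is `Q.subgroupOf N` for `Q = Q'.map N.subtype`; `EQ Q ≤ Q ≤ N` by ZE1, so `EQ Q = E ↔ (EQ Q).subgroupOf N = E.subgroupOf N`), `EE` by TR4. -/
def ZTI_stmt : Prop :=
  ∀ (p : ℕ) (κ : Pm) (M : Ideal (integralClosure ℤ ℂ)), Setup p M → ∀ (G : Type) [Group G] [Finite G] (N : Subgroup G), MZc p κ M N →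
    ∀ φ ∈ IrrOn N, ∀ (Q : Subgroup G) (y : G), DefL p M N φ Q y → KZ p κ Q →
    Le p M N φ = lQ p κ M N (N ⊓ nz (EQ p κ.s Q)) (EQ p κ.s Q) φ

/-- **ZBC** (short; PORT of NBC, `helper14/NA/NBC.lean`; from ZUB, ZE2, CJG, QCJ, TRN, B2). Conjugation by `l ∈ L`. Proof: `η ↦ cjF l η` is a bijection from `BQ M L K E ψ` onto `BQ M L (cjS l K) (cjS l E) ψ` (CJG (1), (6): `SB M L (cjF l η) η`; ZUB (2); ZE2 (3); inverse `cjF l⁻¹`), `EE` by QCJ (1). Second item: if `SB M L φ ψ` the sets for `ψ` and `φ` are equal.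
Third: `BC` (ZUB (1), TRN). -/
def ZBC_stmt : Prop :=
  ∀ (p : ℕ) (κ : Pm) (M : Ideal (integralClosure ℤ ℂ)), Setup p M → ∀ (G : Type) [Group G] [Finite G] (L K E : Subgroup G), K ≤ L → ∀ ψ : G → ℂ,
    (∀ l ∈ L, lQ p κ M L (cjS l K) (cjS l E) ψ = lQ p κ M L K E ψ) ∧
    (∀ φ : G → ℂ, SB M L φ ψ → BQ p κ M L K E φ = BQ p κ M L K E ψ) ∧ BC M K (BQ p κ M L K E ψ)

/-- **ZTC** (short to medium; PORT of NTC, `helper15/NA/NTC.lean`; from ZUH, ZE1, ZE2, ZBC, FEQ). Sum over all `E'`. Proof: `E = EQ D`. If the term for `E'` is not `0` then there is `η ∈ BQ M L (L ⊓ nz E') E' ψ` with `(Q, y)`, `EQ Q = E'`, `L ⊓ cz Q ≤ L ⊓ nz E'` (ZE1 (4)); ZUH: `E = cjS l E'`, `l ∈ L`. For `E' = cjS l E`: `L ⊓ nz E' = cjS l (L ⊓ nz E)`, the same order, and the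
same `lQ` (ZBC (1)). The number of the `E'` is `|L| / |L ⊓ nz E|` (orbit: the fibres of `l ↦ cjS l E`, `l ∈ L`, are the cosets of `L ⊓ nz E`). -/
def ZTC_stmt : Prop :=
  ∀ (p : ℕ) (κ : Pm) (M : Ideal (integralClosure ℤ ℂ)), Setup p M → ∀ (G : Type) [Group G] [Finite G] (L : Subgroup G),
    ∀ ψ ∈ IrrOn L, ∀ (D : Subgroup G) (x : G), DefL p M L ψ D x → KZ p κ D →
    ∑ᶠ E' : Subgroup G, (Nat.card (L ⊓ nz E' : Subgroup G) : ℂ) * lQ p κ M L (L ⊓ nz E') E' ψ =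
      (Nat.card L : ℂ) * lQ p κ M L (L ⊓ nz (EQ p κ.s D)) (EQ p κ.s D) ψ

/-- **ZTL** (short; from CFA, NFV, CNTL, FMX-type facts). Normalisers of normal chains are local. Proof: let `P` be the largest term of `C` (`C` is a finite chain, `R ∈ C`). `P ≤ nrm C` (`nm`: `P` normalises every smaller term), `nrm C ≤ nz P`, `P` is a `p`-group. CFA (1) for `K = nrm C ⊓ cz P ≤ nrm C ≤ nz K`: `ψ₀ ∈ IrrOn K`, `OverE K (nrm C) φ ψ₀ n`; NFV: `SB M (nrm C) φ ψ₀`, so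
CNTL (`L := nrm C`, `R := P`, `η := ψ₀`, `ψ := φ`; `SB.symm`): `l ∈ nrm C` with `l P l⁻¹ ≤ Q`, and `l P l⁻¹ = P`. So `cz Q ≤ cz P`, and `cz P ≤ nz P'` for every term `P' ≤ P`. -/
def ZTL_stmt : Prop :=
  ∀ (p : ℕ) (M : Ideal (integralClosure ℤ ℂ)), Setup p M → ∀ (G : Type) [Group G] [Finite G] (R : Subgroup G) (C : Finset (Subgroup G)),
    NCh p ⊤ R C → ∀ φ ∈ IrrOn (nrm C), ∀ (Q : Subgroup G) (y : G), DefL p M (nrm C) φ Q y → cz Q ≤ nrm C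

/-- **ZTP** (short; from ZUX, DEX, ZUH, ZE1, TRN, FEQ). The `E'` which occur in a local subgroup `N` are conjugate to `E = EQ D`. Proof: `η` with `(Q, y)`, `EQ Q = E' ≤ Q ≤ N ⊓ nz E'`, a `p`-group (ZE1). ZUX (`L := N`): `φ ∈ IrrOn N`, `SB M N η φ`, so `SB M ⊤ φ χ` (TRN). DEX: `DefL p M N φ Q₁ y₁`, `cz Q₁ ≤ N` (hypothesis). ZUH (`L = ⊤`, `K = N`): `KZ Q₁`, `E = cjS g (EQ Q₁)`. ZUH
(`L = N`, `K = N ⊓ nz E'`; `N ⊓ cz Q ≤ N ⊓ nz E'` by ZE1): `EQ Q₁ = cjS n E'`. So `E' = cjS (g n)⁻¹ E`. -/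
def ZTP_stmt : Prop :=
  ∀ (p : ℕ) (κ : Pm) (M : Ideal (integralClosure ℤ ℂ)), Setup p M → ∀ (G : Type) [Group G] [Finite G],
    ∀ χ ∈ Irr G, ∀ (D : Subgroup G) (x : G), DefL p M (⊤ : Subgroup G) χ D x → KZ p κ D → ∀ N : Subgroup G,
    (∀ φ ∈ IrrOn N, ∀ (Q : Subgroup G) (y : G), DefL p M N φ Q y → cz Q ≤ N) →
    ∀ E' : Subgroup G, ∀ η ∈ BQ p κ M (⊤ : Subgroup G) (N ⊓ nz E') E' χ, ∃ g : G, E' = cjS g (EQ p κ.s D)

/-- **ZLC** (medium; PORT of NLC, `helper61/NA/NLC.lean`; from NPA (of NA), ZTI, ZTC, ZUH, ZUX, ZBC, ZE1, DEX, TRN, TPR, LBN, FBC, B2). The blocks of the local subgroup `N`. Proof: as NLC with `A = Blk M χ N`, `B = {(E', η) | η ∈ BQ p κ M ⊤ (N ⊓ nz E') E' χ}`, `S (E', η) φ = SB M N η φ`, `c = |N|`. (1) `η ∈ BQ` with `(Q, y)`, `EQ Q = E'` is a `p`-group contained in `Q ≤ N` (ZE1); ZUX for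
`L := N`: `φ ∈ IrrOn N`, `SB M N η φ`; `SB M ⊤ η φ` (TRN), so `SB M ⊤ φ χ`. (2) as in NLC. (3) for `φ ∈ A`: DEX: `DefL p M N φ Q y`, `cz Q ≤ N` by the hypothesis, ZUH (`L = ⊤`, `K = N`): `KZ Q`; `{(E', η) ∈ B | SB M N η φ}` is the set of the `(E', η)` with `η ∈ BQ p κ M N (N ⊓ nz E') E' φ` (TRN), so the sum is that of ZTC for `L := N`,
`= |N| * lQ M N (N ⊓ nz (EQ Q)) (EQ Q) φ = |N| * Le p M N φ` (ZTI). -/
def ZLC_stmt : Prop :=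
  ∀ (p : ℕ) (κ : Pm) (M : Ideal (integralClosure ℤ ℂ)), Setup p M → ∀ (G : Type) [Group G] [Finite G],
    ∀ χ ∈ Irr G, ∀ (D : Subgroup G) (x : G), DefL p M (⊤ : Subgroup G) χ D x → KZ p κ D → ∀ N : Subgroup G, MZc p κ M N →
    (∀ φ ∈ IrrOn N, ∀ (Q : Subgroup G) (y : G), DefL p M N φ Q y → cz Q ≤ N) →
    (Nat.card N : ℂ) * LL p M χ N =
      ∑ᶠ E' : Subgroup G, (Nat.card (N ⊓ nz E' : Subgroup G) : ℂ) * lQ p κ M (⊤ : Subgroup G) (N ⊓ nz E') E' χ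

/-- **ZTM** (medium; from NTG (of NA), FNO, ZTC, ZTP, ZTL, ZBC, LBN, ZE1, ZE2, FEQ; compare NTM, `helper61/NA/NTM.lean`). The toggle for all `E'`; the sum is over the NORMAL chains. Proof: `E = EQ D`, `g_{E'} K = if E' ≤ K then |K| * ls p K (BQ p κ M ⊤ K E' χ) else 0` (an integer; `ls` is `lQ` by ZBC (3), LBN). Exchange the finite sums. (1) if `E'` is not conjugate to `E` all terms are
`0` (ZTP, ZTL). (2) for `E'` conjugate to `E`: for all `C` the term is `g_{E'} (nz E' ⊓ nrm C)` (if `BQ` is not empty then `E' ≤ Q ≤ nrm C ⊓ nz E'`). `¬ E' ≤ R` (`R` is normal). FNO (`L = ⊤`, `P = R`, `N = nz E'`): the sum over all normal chains `NCh p ⊤ R C` is the sum over all chains `PCh p ⊤ R C`, and this is `0` by NTG (`F K = |K| * ls ..`; `E'` is a `p`-group). The term of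
`C = {R}` is `g_{E'} (nz E')` (`nrm {R} = nz R = ⊤`, `card + 1 = 2`), so the sum over the `C ≠ {R}` is `- |nz E'| * lQ M ⊤ (nz E') E' χ`. (3) the sum over the `E'` of `|nz E'| * lQ M ⊤ (nz E') E' χ` is `|G| * lQ M ⊤ (nz E) E χ`: ZTC for `L = ⊤` (the terms with `E'` not conjugate to `E` are `0`). -/
def ZTM_stmt : Prop :=
  ∀ (p : ℕ) (κ : Pm) (M : Ideal (integralClosure ℤ ℂ)), Setup p M → ∀ (G : Type) [Group G] [Finite G],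
    ∀ χ ∈ Irr G, ∀ (D : Subgroup G) (x : G), DefL p M (⊤ : Subgroup G) χ D x → KZ p κ D → ∀ R : Subgroup G, IsPGroup p R → nz R = ⊤ →
    ¬ EQ p κ.s D ≤ R →
    ∑ᶠ C ∈ {C : Finset (Subgroup G) | NCh p ⊤ R C ∧ C ≠ {R}}, (-1 : ℂ) ^ (C.card + 1) *
      ∑ᶠ E' : Subgroup G, (Nat.card (nrm C ⊓ nz E' : Subgroup G) : ℂ) * lQ p κ M (⊤ : Subgroup G) (nrm C ⊓ nz E') E' χ =
      - ((Nat.card G : ℂ) * lQ p κ M (⊤ : Subgroup G) (nz (EQ p κ.s D)) (EQ p κ.s D) χ)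

/-- **ZTN** (short; from ZTM, ZLC, ZTL, TPR; compare NTN, `helper2/NA/NTN.lean`). The chain sum. Proof: the term of `C = {R}` is `|G| LL ⊤` (`nz R = ⊤`), `LL p M χ ⊤ = Le p M ⊤ χ` (TPR: `Blk M χ ⊤ = Bq M ⊤ ⊤ χ`). For `C ≠ {R}`: `nrm C ≠ ⊤` (as in NTN: `C` contains a `p`-subgroup `Q ≠ R`, `R ≤ Q`; if `nrm C = ⊤` then `Q` is normal in `G` and `Q ≤ R` by `IsOp`), ZLC with the
hypothesis and ZTL; ZTM. -/
def ZTN_stmt : Prop :=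
  ∀ (p : ℕ) (κ : Pm) (M : Ideal (integralClosure ℤ ℂ)), Setup p M → ∀ (G : Type) [Group G] [Finite G],
    ∀ χ ∈ Irr G, ∀ (D : Subgroup G) (x : G), DefL p M (⊤ : Subgroup G) χ D x → KZ p κ D → ∀ R : Subgroup G, IsOp p (⊤ : Subgroup G) R →
    ¬ EQ p κ.s D ≤ R → (∀ N : Subgroup G, N ≠ ⊤ → MZc p κ M N) →
    ∑ᶠ C ∈ {C : Finset (Subgroup G) | NCh p ⊤ R C}, (-1 : ℂ) ^ (C.card + 1) * ((Nat.card (nrm C) : ℂ) * LL p M χ (nrm C)) =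
      (Nat.card G : ℂ) * (Le p M (⊤ : Subgroup G) χ - lQ p κ M (⊤ : Subgroup G) (nz (EQ p κ.s D)) (EQ p κ.s D) χ)

/-! ## 4. Block D: divisibility -/

/-- **ZDD** (short to medium; from DUN, SYL, DCM, BLE, TPR, CLS, KG1, KIN; ORP or CFX). The defect groups of a dominated block are contained in the image of the defect group. Proof: `ψ = χ' ∘ π ∈ Irr G` (grep `KIN`, `KPR`: inflation), in the block of `χ` (`Induces M ψ χ`, TPR: `SB M ⊤ ψ χ`). `e = eS ⊤ (Bl M ⊤ χ)`: `cc ψ e = 1` (BLE (5)). `ē b = ∑_{π y = b} e y` is a class function of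
`Gb` with `IntAt` values, `cc χ' ē = cc ψ e = 1`. DCM (1) for `Gb`, `z = ē`: there is `b` with `¬ InM (ē b)` and `¬ InM (cc χ' (cls ⊤ b))`. `P` a Sylow `p`-subgroup of `Cz ⊤ b` (SYL (2)), `P' = P.comap π` a `p`-group (`R₁` is a `p`-group) which acts by conjugation on `{y | π y = b}`; `e` is a class function, so `ē b` is modulo `InM` the sum of `e y` over the `y` of the fibre fixed by `P'` (ORP), and
there is such a `y` with `¬ InM (e y)`. `P' ≤ Cz ⊤ y`, DUN (3) for `G`: `g` with `g⁻¹ P' g ≤ D`, so `P ≤` a conjugate of `π D`. DUN (2) for `Gb`, `D'`: `D'` is conjugate into `Cz ⊤ b`, and by SYL (3) into `P`. -/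
def ZDD_stmt : Prop :=
  ∀ (p : ℕ) (M : Ideal (integralClosure ℤ ℂ)), Setup p M → ∀ (G Gb : Type) [Group G] [Finite G] [Group Gb] [Finite Gb]
    (R₁ : Subgroup G) (π : G →* Gb), Qn p R₁ π → ∀ χ ∈ Irr G, ∀ (D : Subgroup G) (x : G), DefL p M (⊤ : Subgroup G) χ D x →
    ∀ χ' ∈ Irr Gb, Induces M (fun g => χ' (π g)) χ → ∀ (D' : Subgroup Gb) (x' : Gb), DefL p M (⊤ : Subgroup Gb) χ' D' x' →
    ∃ g : Gb, ∀ d ∈ D', ∃ c ∈ D, g * d * g⁻¹ = π c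

/-- **ZQK** (short; from ZDD, DEX, and the proof of NQK, `helper26/NA/NQK.lean`; KMG, KG1, CLS, TPR, SBI, C3). `Uq` of the quotient by an abelian normal `p`-subgroup `R₁` with `z ^ p ^ (e - 1) ∉ R₁`. Proof: `pe .. od, ne` as in NQK (`ne` and the order do not use `cd`). `cx`: `D'` a defect group of `χ'`, `D` one of `χ` (DEX), ZDD: `g D' g⁻¹ ≤ D.map π`, so
`g ⁅D', D'⁆ g⁻¹ ≤ ⁅D, D⁆.map π` (`Subgroup.map_commutator`, `Subgroup.commutator_mono`), and `cx` for `D`. -/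
def ZQK_stmt : Prop :=
  ∀ (p e a : ℕ) (M : Ideal (integralClosure ℤ ℂ)), Setup p M → 1 ≤ e → ∀ (G Gb : Type) [Group G] [Finite G] [Group Gb] [Finite Gb]
    (R₁ : Subgroup G) (π : G →* Gb), Qn p R₁ π → ∀ χ ∈ Irr G, ∀ z x : G, Uq p e a M (⊤ : Subgroup G) χ z x → z ^ p ^ (e - 1) ∉ R₁ →
    ∀ χ' ∈ Irr Gb, Induces M (fun g => χ' (π g)) χ → Uq p e a M (⊤ : Subgroup Gb) χ' (π z) (π x)

/-- **ZDB** (short; from DEX, NUC (of NA), NDX (of NA), TPR, CLS; compare NDB, `helper63/NA/NDB.lean`). The case `O_p(G) = 1`. Proof: DEX: `DefL p M ⊤ χ D y`; NUC for `z x`: `l` with `z' = l z l⁻¹ ∈ D` central in `D`. `CentreOut p (e - a) D`: `1 ≤ e - a`, and if `z' ^ p ^ (e - a - 1) ∈ ⁅D, D⁆` then by `cx` `z' ^ p ^ (e - 1) = 1`, but `orderOf z' = p ^ e`.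
`DefectGroup p M χ D` as in NDB. NDX. -/
def ZDB_stmt : Prop :=
  ∀ (p e a : ℕ) (M : Ideal (integralClosure ℤ ℂ)), Setup p M → a < e → ∀ (G : Type) [Group G] [Finite G], IsOp p (⊤ : Subgroup G) ⊥ →
    ∀ χ ∈ Irr G, ∀ z x : G, Uq p e a M (⊤ : Subgroup G) χ z x →
    (p : ℤ) ^ (e - a) * Nat.card G ∣ ∑ᶠ C ∈ {C : Finset (Subgroup G) | NCh p ⊤ ⊥ C},
      (-1) ^ (C.card + 1) * ((Nat.card (nrm C) : ℤ) * (lb p M χ (nrm C) : ℤ))

/-- **ZDV** (short to medium: PORT of NDV, `helper92/NA/NDV.lean`, with `Ucl p e m`, `e - m / 2`, NDB, NQK replaced by `Uq p e a`, `e - a`, ZDB, ZQK; from ZDB, ZQK, NKC, NKB (of NA), KG1, KLE, KIN, KBL, KUN, BCL, IM). -/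
def ZDV_stmt : Prop :=
  ∀ (p e a : ℕ) (M : Ideal (integralClosure ℤ ℂ)), Setup p M → a < e → ∀ (G : Type) [Group G] [Finite G],
    ∀ χ ∈ Irr G, ∀ z x : G, Uq p e a M (⊤ : Subgroup G) χ z x → ∀ R : Subgroup G, IsOp p (⊤ : Subgroup G) R → z ^ p ^ (e - 1) ∉ R →
    (p : ℤ) ^ (e - a) * Nat.card G ∣ ∑ᶠ C ∈ {C : Finset (Subgroup G) | NCh p ⊤ R C},
      (-1) ^ (C.card + 1) * ((Nat.card (nrm C) : ℤ) * (lb p M χ (nrm C) : ℤ))

/-- **ZUQ** (short; from ZE1, ZE3, DUN, NDG (of NA), TPR). Unit classes from elements of `E`. Proof: ZE1 (3): `z ∈ D` central in `D`, `z ^ p ^ (s + w) = y`. `y ∉ R` has order `p`, so `orderOf z = p ^ (s + w + 1)` (`orderOf_eq_prime_pow`). `x` commutes with `D` (`DefL.le`). NDG: `ne`. `cx`: ZE3 and ZE2 (3) for the other defect groups (DUN (1)). -/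
def ZUQ_stmt : Prop :=
  ∀ (p : ℕ) (κ : Pm) (M : Ideal (integralClosure ℤ ℂ)), Setup p M → ∀ (G : Type) [Group G] [Finite G],
    ∀ χ ∈ Irr G, ∀ (D : Subgroup G) (x : G), DefL p M (⊤ : Subgroup G) χ D x → KZ p κ D → ∀ R : Subgroup G, ∀ y ∈ EQ p κ.s D, y ∉ R →
    ∃ z ∈ D, (∀ d ∈ D, z * d = d * z) ∧ z ^ p ^ (κ.s + κ.w) = y ∧ Uq p (κ.s + κ.w + 1) κ.a M (⊤ : Subgroup G) χ z x

/-! ## 5. Block F: `E ≤ O_p(G)`, Fong-Reynolds. `R₁` an abelian normal `p`-subgroup of `G`, `K = cz R₁` -/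

/-- **ZFA** (short; from ZUH, ZUB, ZE2, CFA, NFV, DEX, CNTL, CJG, TPR; compare NFA, `helper63/NA/NFA.lean`). Proof: CFA (1) for `K = cz R₁ ≤ ⊤ ≤ nz K`: `ψ₀`, `OverE K ⊤ χ ψ₀ n`; NFV (`P = R₁`, `N = ⊤`, `⊤ ⊓ cz R₁ = K`): `SB M ⊤ χ ψ₀`. DEX: `DefL p M K ψ₀ Q₀ y₀`. `R₁ ≤ Q₀`: CNTL for `L = K`, `R = R₁` (`R₁ ≤ K` as `R₁` is commutative, `K ⊓ cz R₁ = K`), and `K` centralises `R₁`.
So `cz Q₀ ≤ K`; ZUH (`L = ⊤`): `KZ Q₀`, `EQ D = cjS g (EQ Q₀)`. `ψ₁ = cjF g ψ₀`, `Q = cjS g Q₀` (`cjS g K = K`: `nz R₁ = ⊤`), ZUB (2), ZE2 (3); `SB M ⊤ ψ₁ ψ₀` (CJG (6) for `L = ⊤`). -/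
def ZFA_stmt : Prop :=
  ∀ (p : ℕ) (κ : Pm) (M : Ideal (integralClosure ℤ ℂ)), Setup p M → ∀ (G : Type) [Group G] [Finite G],
    ∀ χ ∈ Irr G, ∀ (D : Subgroup G) (x : G), DefL p M (⊤ : Subgroup G) χ D x → KZ p κ D → ∀ R₁ : Subgroup G, IsPGroup p R₁ →
    (∀ a ∈ R₁, ∀ b ∈ R₁, a * b = b * a) → nz R₁ = ⊤ →
    ∃ ψ₁ ∈ IrrOn (cz R₁), SB M (⊤ : Subgroup G) ψ₁ χ ∧ ∃ (Q : Subgroup G) (y : G), DefL p M (cz R₁) ψ₁ Q y ∧ KZ p κ Q ∧
      EQ p κ.s Q = EQ p κ.s D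

/-- **ZFS** (short; from ZUB, ZUE, ZE2, CJG; compare NFS, `helper63/NA/NFS.lean`). The stabiliser normalises `E = EQ Q`. Proof: `g ∈ TT M R₁ ψ₁`: `g ∈ nz R₁`, so `cjS g K = K`, and `SB M K (cjF g ψ₁) ψ₁`; ZUB (2), (1): `DefL p M K ψ₁ (cjS g Q) _`; ZUE: `cjS g E = EQ (cjS g Q) = cjS k E = E`, `k ∈ K = cz R₁ ≤ cz E`. `K ≤ TT`: `cz R₁ ≤ nz R₁`, CJG (6).
`cz R₁ ≤ nz E`: `E ≤ R₁`. -/
def ZFS_stmt : Prop :=
  ∀ (p : ℕ) (κ : Pm) (M : Ideal (integralClosure ℤ ℂ)), Setup p M → ∀ (G : Type) [Group G] [Finite G] (R₁ : Subgroup G),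
    ∀ ψ₁ ∈ IrrOn (cz R₁), ∀ (Q : Subgroup G) (y : G), DefL p M (cz R₁) ψ₁ Q y → KZ p κ Q → EQ p κ.s Q ≤ R₁ →
    TT M R₁ ψ₁ ≤ nz (EQ p κ.s Q) ∧ cz R₁ ≤ TT M R₁ ψ₁ ∧ cz R₁ ≤ nz (EQ p κ.s Q)

/-- **ZFE** (medium; from ZUH, ZUB, ZUE, ZE1, ZE2, DEX, CNTL, CFA, NFV, NOB (of NA), TRN, CJG; compare NFE, `helper48/NA/NFE.lean`). The blocks of `nz E`, `E = EQ D = EQ Q ≤ R₁`. `K = cz R₁ ≤ H = nz E`. FACT: for `φ ∈ IrrOn H` and `DefL p M H φ Q₂ y₂`: `E ≤ Q₂`: CFA (1), NFV for `E` (`P = E`, `N = H`): `SB M H φ ψ₀`, `ψ₀ ∈ IrrOn (H ⊓ cz E)`, CNTL (`R = E`), `H` normalises `E`; so `cz Q₂ ≤ H`.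
In the same way for `K`: a defect group of a character of `K` contains `R₁` (as in ZFA), so its centraliser is in `K`. `⊆`: `φ ∈ IrrOn H`, `SB M H φ ψ₁`: `SB M ⊤ φ χ` (TRN). DEX: `(Q₂, y₂)`; ZUH (`L = ⊤`, `K := H`): `KZ Q₂`. ZUH (`L = H`, `K`, `η = ψ₁`, `ψ = φ`, `D := Q₂`): `EQ Q₂ = cjS h (EQ Q) = cjS h E = E`, `h ∈ H`. `⊇`: `φ ∈ IrrOn H`, `SB M ⊤ φ χ`, `(Q₂, y₂)`, `KZ Q₂`, `EQ Q₂ = E`.
CFA (1) for `K ≤ H`: `ψ'`, NFV: `SB M H φ ψ'`. DEX: `(Q', y')` for `K`, `ψ'`. ZUH (`L = H`): `KZ Q'`, `E = cjS h (EQ Q')`, so `EQ Q' = E`. `SB M ⊤ ψ₁ ψ'`; NOB (`H := ⊤`): `g` with `SB M K (cjF g ψ') ψ₁`. ZUB (2), (1): `DefL p M K ψ₁ (cjS g Q') _`; ZUE: `cjS g E = cjS k (EQ Q) = E` (`k ∈ K ≤ cz E`), so `g ∈ H`, and `SB M H ψ' (cjF g ψ')` (CJG (6)), `SB M H (cjF g ψ') ψ₁` (TRN): `SB M H φ ψ₁`. -/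
def ZFE_stmt : Prop :=
  ∀ (p : ℕ) (κ : Pm) (M : Ideal (integralClosure ℤ ℂ)), Setup p M → ∀ (G : Type) [Group G] [Finite G],
    ∀ χ ∈ Irr G, ∀ (D : Subgroup G) (x : G), DefL p M (⊤ : Subgroup G) χ D x → KZ p κ D → ∀ R₁ : Subgroup G, IsPGroup p R₁ →
    (∀ a ∈ R₁, ∀ b ∈ R₁, a * b = b * a) → nz R₁ = ⊤ → EQ p κ.s D ≤ R₁ → ∀ ψ₁ ∈ IrrOn (cz R₁), SB M (⊤ : Subgroup G) ψ₁ χ →
    ∀ (Q : Subgroup G) (y : G), DefL p M (cz R₁) ψ₁ Q y → KZ p κ Q → EQ p κ.s Q = EQ p κ.s D →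
    Bl M (nz (EQ p κ.s D)) ψ₁ = BQ p κ M (⊤ : Subgroup G) (nz (EQ p κ.s D)) (EQ p κ.s D) χ

/-- **ZMF** (short; from NOP, NFR, NEG (4), NDG (of NA), ZE1, ZFA, ZFS, ZFE, TRN; compare NMF, `helper95/NA/NMF.lean`). The claim if `E ≤ R`, `R` a normal `p`-subgroup. Proof: `R₁ = R ⊓ cz R`: commutative, `nz R₁ = ⊤` (`nz R = ⊤`). `E = EQ D ≤ cz R`: for `y ∈ E` ZE1 (3) gives `z ∈ D` central in `D` with `y = z ^ p ^ (s + w)`; NDG: `¬ InM (cc χ (cls ⊤ (z * x)))`; NOP: `z * x ∈ cz R`;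
`z` is a power of `z * x` (NEG (4)), so `z ∈ cz R`, `y ∈ cz R`. ZFA: `ψ₁`. `Bl M ⊤ ψ₁ = Bl M ⊤ χ` (`SB.trans`). NFR for `H = ⊤` and for `H = nz E` (ZFS: `TT M R₁ ψ₁ ≤ nz E`): `Le ⊤ χ = Le ⊤ ψ₁ = Le (nz E) ψ₁`, `= lQ` by ZFE. -/
def ZMF_stmt : Prop :=
  ∀ (p : ℕ) (κ : Pm) (M : Ideal (integralClosure ℤ ℂ)), Setup p M → ∀ (G : Type) [Group G] [Finite G],
    ∀ χ ∈ Irr G, ∀ (D : Subgroup G) (x : G), DefL p M (⊤ : Subgroup G) χ D x → KZ p κ D → ∀ R : Subgroup G, IsPGroup p R → nz R = ⊤ →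
    EQ p κ.s D ≤ R → Le p M (⊤ : Subgroup G) χ = lQ p κ M (⊤ : Subgroup G) (nz (EQ p κ.s D)) (EQ p κ.s D) χ

/-! ## 6. The main induction and the final statements -/

/-- **ZMN** (short to medium; from ZTN, ZDV, ZUQ, ZMF, ZXU, ZQU, LBN (`lb_eq_LL`), TPR; compare NMP, `helper41/NA/NMP.lean`). `l(B) = l(b_E)`. Proof: strong induction on `|G|` (for types). `R = O_p(G)`. If `E = EQ D ≤ R`: ZMF. Otherwise let `y ∈ E`, `y ∉ R`; ZUQ: `z` with `Uq p e a`, `e = s + w + 1`, `z ^ p ^ (e - 1) = y ∉ R`; `a ≤ s < e`. ZTN (the claim for the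
types `N : Subgroup G`, `N ≠ ⊤`, by induction) and ZDV (cast to `ℂ` with `lb_eq_LL`): `|G| (Le - lQ) = p ^ (e - a) |G| n`, `n` an integer. `Le p M ⊤ χ = l₁` with `1 ≤ l₁ ≤ p ^ w` (BDK for `L = ⊤`), ZXU, ZQU for `L = ⊤` (`⊤ ⊓ nz E = nz E`): `η ∈ BQ` with `(Q, _)`, `lQ = Le p M (nz E) η = l₂`, `1 ≤ l₂ ≤ p ^ w` (BDK for `L = nz E`, `Q`).
`p ^ w ≤ p ^ (e - a)` (`a ≤ s`), so `|l₁ - l₂| < p ^ (e - a)` and `l₁ = l₂`. ALL primes `p`. -/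
def ZMN_stmt : Prop :=
  ∀ (p : ℕ) (κ : Pm) (M : Ideal (integralClosure ℤ ℂ)), Setup p M → BDK p κ M κ.w → ∀ (G : Type) [Group G] [Finite G], MZc p κ M G

/-- **ZFN** (short; PORT of NFP, `helper44/NA/NFP.lean`; from ZTN, ZMN, FT0, KRG, B2, ZE1). The sum over `d` of the alternating sums is zero. (`R = ⊥`: `¬ EQ D ≤ ⊥` by ZE1 (2).) -/
def ZFN_stmt : Prop :=
  ∀ (p : ℕ) (κ : Pm) (M : Ideal (integralClosure ℤ ℂ)), Setup p M → BDK p κ M κ.w → ∀ (G : Type) [Group G] [Finite G],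
    ∀ χ ∈ Irr G, ∀ (D : Subgroup G) (x : G), DefL p M (⊤ : Subgroup G) χ D x → KZ p κ D → IsOp p (⊤ : Subgroup G) ⊥ →
    ∑ᶠ d : ℤ, altSum (trivE G) p M χ d ⊤ = 0

/-- **ZFD** (short; from ZFN, ZGP, TPR; compare NFQ, `helper63/NA/NFQ.lean`). THE FINAL STATEMENT in terms of the defect group. Proof: `DefectGroup p M χ D` gives `DefAt p M χ D x`, so `DefL p M ⊤ χ D x` (TPR). ZGP. -/
def ZFD_stmt : Prop :=
  ∀ (p : ℕ) (M : Ideal (integralClosure ℤ ℂ)), Setup p M → ∀ a r w : ℕ, (∀ κ : Pm, κ.a = a → κ.r = r → κ.w = w → BDK p κ M w) →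
    ∀ (G : Type) [Group G] [Finite G], ∀ χ ∈ Irr G, ∀ D : Subgroup G, Pool.Agent.MAP.DefectGroup p M χ D → ∀ Z ≤ D,
    (∀ z ∈ Z, ∀ x ∈ D, z * x = x * z) → Nat.card D ≤ p ^ a * Nat.card Z → {z | z ∈ Z ∧ z ^ p = 1}.ncard ≤ p ^ r →
    (∃ z ∈ Z, z ^ p ^ (r * (a + w)) ≠ 1) → IsOp p (⊤ : Subgroup G) ⊥ → ∑ᶠ d : ℤ, altSum (trivE G) p M χ d ⊤ = 0

end Pool.Agent.ZB
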