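import Pool.Agent.helper7.ZB.SpecT

/-!
# Theorem ZB (MP_baa4d7_al), row ZFD: the final statement in terms of the defect group
-/

set_option autoImplicit false

namespace Pool.Agent.ZB

open Pool.Agent.helper58.DC Pool.Agent.DI Pool.Agent.GR Pool.Agent.OB Pool.Agent.DR Pool.Agent.FI Pool.Agent.FI3 Pool.Agent.FI4 Pool.Agent.FI4I Pool.Agent.LE Pool.Agent.L5 Pool.Agent.NAB

theorem ZFD_pp {p : ℕ} (hp : p.Prime) {G : Type} [Group G] [Finite G] {D C : Subgroup G}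
    (hDC : D ≤ C) (hD : IsPGroup p D) : Nat.card D ≤ pp p C ∧
      (¬ p ∣ D.relIndex C → Nat.card D = pp p C) := by
  have : Fact p.Prime := ⟨hp⟩
  obtain ⟨k, hk⟩ := IsPGroup.iff_card.1 hD
  have h1 : Nat.card D * D.relIndex C = Nat.card C := by
    have h2 := Subgroup.relIndex_mul_relIndex (⊥ : Subgroup G) D C bot_le hDC
    rw [Subgroup.relIndex_bot_left, Subgroup.relIndex_bot_left] at h2
    exact h2
  have hC0 : Nat.card C ≠ 0 := Nat.card_pos.ne'
  have hr0 : D.relIndex C ≠ 0 := by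
    intro h
    rw [h, mul_zero] at h1
    exact hC0 h1.symm
  have h3 : padicValNat p (Nat.card C) = k + padicValNat p (D.relIndex C) := by
    rw [← h1, hk, padicValNat.mul (pow_ne_zero _ hp.ne_zero) hr0, padicValNat.prime_pow]
  constructor
  · unfold pp
    rw [hk, h3]
    exact Nat.pow_le_pow_right hp.pos (Nat.le_add_right _ _)
  · intro h
    unfold pp
    rw [hk, h3, padicValNat.eq_zero_of_not_dvd h, add_zero]

theorem ZFD (hZFN : ZFN_stmt) (hZGP : ZGP_stmt) (hCLS : CLS_stmt) (hTPR : Pool.Agent.FI.TPR_stmt) : ZFD_stmt := by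
  intro p M hS a r w hBD G _ _ χ hχ D hD Z hZ hc hcard hrank hexp hOp
  have hpr : p.Prime := hS.pr
  obtain ⟨hT1, -, hT3, -, hT5⟩ := hTPR p M hS G
  have hom : ∀ y : G, omega χ y = cc χ (cls ⊤ y) := fun y => (hCLS G ⊤ y).2.2.2.2.2.2.2.1 χ
  have hint : ∀ y : G, IsIntegral ℤ (cc χ (cls ⊤ y)) := fun y =>
    (hCLS G ⊤ y).2.2.2.2.2.2.2.2 ⊤ le_rfl χ (by rw [hT1]; exact hχ)
  have hnv : ∀ w : G, Pool.Agent.MAP.NonVan M χ w ↔ ¬ InM M (omega χ w) := by
    intro w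
    constructor
    · intro h h1
      rw [hom] at h1
      have h2 : InM M (((⟨cc χ (cls ⊤ w), hint w⟩ : integralClosure ℤ ℂ)) : ℂ) := h1
      exact h _ (InM.mem hS h2) (hom w)
    · intro h a ha h1
      apply h
      rw [h1]
      exact InM.coe hS ha
  obtain ⟨x, h1, h2, h3, h4, h5, h6⟩ := hD
  have hDcard : Nat.card D = pp p (Subgroup.centralizer ({x} : Set G)) := (ZFD_pp hpr h3 h4).2 h5
  have hDA : DefAt p M χ D x := by
    refine ⟨h1, (hnv x).1 h2, h3, h4, hDcard, fun y hy => ?_⟩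
    obtain ⟨Q, h7, h8, h9⟩ := h6 y ((hnv y).2 hy)
    exact h9.trans (ZFD_pp hpr h7 h8).1
  have hOm : Om p 0 Z = {z | z ∈ Z ∧ z ^ p = 1} := by
    ext y
    constructor
    · rintro ⟨k1, z, hz, k2⟩
      rw [pow_zero, pow_one] at k2
      rw [← k2]
      rw [← k2] at k1
      exact ⟨hz, k1⟩
    · rintro ⟨k1, k2⟩
      refine ⟨k2, y, k1, ?_⟩
      rw [pow_zero, pow_one]
  obtain ⟨κ, ka, kr, kw, hK⟩ := hZGP p a r w hpr G D Z h4 hZ hc hcard (by rw [hOm]; exact hrank) hexp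
  refine hZFN p κ M hS ?_ G χ hχ D x (hT3 χ D x hDA) hK hOp
  rw [kw]
  exact hBD κ ka kr kw

end Pool.Agent.ZB
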