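import Pool.Agent.helper7.ZB.SpecT

set_option autoImplicit false

namespace Pool.Agent.ZB

open Pool.Agent.helper58.DC Pool.Agent.DI Pool.Agent.GR Pool.Agent.OB Pool.Agent.DR Pool.Agent.FI Pool.Agent.FI3 Pool.Agent.FI4 Pool.Agent.FI4I Pool.Agent.LE Pool.Agent.L5 Pool.Agent.NAB

/-- The transfer to the centre kills the commutators. -/
theorem ZE3_tr {H : Type} [Group H] [Finite H] : ∀ d ∈ ⁅(⊤ : Subgroup H), (⊤ : Subgroup H)⁆, d ^ (Subgroup.center H).index = 1 := by
  intro d hd
  have h1 : ⁅(⊤ : Subgroup H), (⊤ : Subgroup H)⁆ ≤ (MonoidHom.transferCenterPow H).ker := by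
    rw [Subgroup.commutator_le]
    intro x _ y _
    rw [MonoidHom.mem_ker, map_commutatorElement, commutatorElement_eq_one_iff_mul_comm]
    exact Subtype.ext ((Subgroup.mem_center_iff.1 (MonoidHom.transferCenterPow H y).2 _))
  have h2 := h1 hd
  rw [MonoidHom.mem_ker] at h2
  have h3 := congrArg (Subgroup.subtype (Subgroup.center H)) h2
  rw [map_one] at h3
  exact h3

theorem ZE3 : ZE3_stmt := by
  intro p hp κ G _ _ Q hQ d hd
  obtain ⟨-, -, hQp, Z, hZQ, hc, hcard, -⟩ := hQ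
  have hF : Fact p.Prime := ⟨hp⟩
  obtain ⟨b, hb⟩ := hQp.index (Subgroup.center Q)
  have hle : Z.subgroupOf Q ≤ Subgroup.center Q := by
    intro z hz
    rw [Subgroup.mem_center_iff]
    intro g
    have h1 := hc z hz g g.2
    exact Subtype.ext h1.symm
  have h1 : Nat.card (Z.subgroupOf Q) = Nat.card Z :=
    Nat.card_congr (Subgroup.subgroupOfEquivOfLe hZQ).toEquiv
  have h2 : Nat.card Z ≤ Nat.card (Subgroup.center Q) := by
    rw [← h1]
    exact Nat.card_le_card_of_injective (Subgroup.inclusion hle) (Subgroup.inclusion_injective hle)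
  have h3 := (Subgroup.center Q).card_mul_index
  have hpos : 0 < Nat.card (Subgroup.center Q) := Nat.card_pos
  have h4 : p ^ b ≤ p ^ κ.a := by
    rw [hb] at h3
    have h5 : Nat.card (Subgroup.center Q) * p ^ b ≤ Nat.card (Subgroup.center Q) * p ^ κ.a := by
      rw [h3, mul_comm]
      exact hcard.trans (Nat.mul_le_mul_left _ h2)
    exact Nat.le_of_mul_le_mul_left h5 hpos
  have h5 : b ≤ κ.a := (Nat.pow_le_pow_iff_right hp.one_lt).1 h4
  have h6 : d ∈ (⁅(⊤ : Subgroup Q), (⊤ : Subgroup Q)⁆).map Q.subtype := by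
    rw [Subgroup.map_commutator, ← MonoidHom.range_eq_map, Subgroup.range_subtype]
    exact hd
  obtain ⟨d', hd', rfl⟩ := h6
  have h7 := ZE3_tr d' hd'
  rw [hb] at h7
  have h8 : (d' : Q) ^ p ^ κ.a = 1 := by
    rw [← Nat.add_sub_cancel' h5, pow_add, pow_mul, h7, one_pow]
  rw [← map_pow, h8, map_one]

end Pool.Agent.ZB
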