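import Pool.Agent.helper7.ZB.SpecT

set_option autoImplicit false

namespace Pool.Agent.ZB

open Pool.Agent.helper58.DC Pool.Agent.DI Pool.Agent.GR Pool.Agent.OB Pool.Agent.DR Pool.Agent.FI Pool.Agent.FI3 Pool.Agent.FI4 Pool.Agent.FI4I Pool.Agent.LE Pool.Agent.L5 Pool.Agent.NAB

theorem ZTP_inv {G : Type} [Group G] (l : G) (Q : Subgroup G) : cjS l⁻¹ (cjS l Q) = Q := by
  ext x
  rw [mem_cjS, mem_cjS]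
  have e : l⁻¹ * (l⁻¹⁻¹ * x * l⁻¹) * l = x := by group
  rw [e]

theorem ZTP_mul {G : Type} [Group G] (l g : G) (Q : Subgroup G) : cjS l (cjS g Q) = cjS (l * g) Q := by
  ext x
  rw [mem_cjS, mem_cjS, mem_cjS]
  have e : g⁻¹ * (l⁻¹ * x * l) * g = (l * g)⁻¹ * x * (l * g) := by group
  rw [e]

theorem ZTP (hZUX : ZUX_stmt) (hDEX : DEX_stmt) (hZUH : ZUH_stmt) (hZE1 : ZE1_stmt) (hTRN : Pool.Agent.FI.TRN_stmt)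
    (hTPR : Pool.Agent.FI.TPR_stmt) : ZTP_stmt := by
  intro p κ M hM G _ _ χ hχ D x hD hK N hloc E' η hη
  obtain ⟨hη1, hη2, Q, y, hQ, hKQ, hE⟩ := hη
  obtain ⟨-, ⟨-, e3, -, e4, -⟩, -, -, e5, e6, -⟩ := hZE1 p hM.pr κ G Q hKQ
  rw [hE] at e3 e4 e5 e6
  have hχ' : χ ∈ IrrOn (⊤ : Subgroup G) := by
    rw [(hTPR p M hM G).1]
    exact hχ
  have hQN : Q ≤ N ⊓ nz E' := hQ.le.trans inf_le_left
  have hEN : E' ≤ N := e3.trans (hQN.trans inf_le_left)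
  obtain ⟨φ, hφ, hSB⟩ := hZUX p M hM G N E' e4 hEN η hη1
  have hz1 : ∀ t, t ∉ N → η t = 0 := fun t ht => IrrOn_zero hη1 (fun h => ht h.1)
  have hz2 : ∀ t, t ∉ N → φ t = 0 := fun t ht => IrrOn_zero hφ ht
  have hT := hTRN G M N ⊤ le_top η φ χ hz1 hz2 hSB
  have hφχ : SB M ⊤ φ χ := hT.2.2 hη2
  obtain ⟨Q₁, y₁, hQ₁, -⟩ := hDEX p M hM G N φ hφ
  have hc1 : (⊤ : Subgroup G) ⊓ cz Q₁ ≤ N := inf_le_right.trans (hloc φ hφ Q₁ y₁ hQ₁)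
  obtain ⟨hKQ₁, g, -, -, hg⟩ := hZUH p κ M hM G ⊤ N le_top χ hχ' D x hD hK φ hφ hφχ Q₁ y₁ hQ₁ hc1
  have hc2 : N ⊓ cz Q ≤ N ⊓ nz E' := inf_le_inf_left N (e5.trans e6)
  obtain ⟨-, n, -, -, hn⟩ := hZUH p κ M hM G N (N ⊓ nz E') inf_le_left φ hφ Q₁ y₁ hQ₁ hKQ₁ η hη1 hSB Q y hQ hc2
  rw [hE] at hn
  refine ⟨(g * n)⁻¹, ?_⟩
  rw [hg, hn, ZTP_mul g n, ZTP_inv]

end Pool.Agent.ZB
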