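import Pool.Agent.helper7.ZB.SpecT

set_option autoImplicit false

namespace Pool.Agent.ZB

open Pool.Agent.helper58.DC Pool.Agent.DI Pool.Agent.GR Pool.Agent.OB Pool.Agent.DR Pool.Agent.FI Pool.Agent.FI3 Pool.Agent.FI4 Pool.Agent.FI4I Pool.Agent.LE Pool.Agent.L5 Pool.Agent.NAB

theorem ZUB (hSBI : Pool.Agent.FI.SBI_stmt) (hCJG : CJG_stmt) : ZUB_stmt := by
  intro p M hM G _ _ L ψ D x hD
  have h1 : ∀ ψ' : G → ℂ, ∀ (L' D' : Subgroup G) (ψ₀ : G → ℂ) (x' : G), DefL p M L' ψ₀ D' x' → SB M L' ψ₀ ψ' → DefL p M L' ψ' D' x' := by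
    intro ψ' L' D' ψ₀ x' hd hSB
    exact
      { reg := hd.reg
        mem := hd.mem
        le := hd.le
        pg := hd.pg
        card := hd.card
        ne := by
          rw [← (hSBI p M hM G L' ψ₀ ψ' hSB).2 x' hd.mem]
          exact hd.ne
        min := by
          intro y hy hne
          rw [← (hSBI p M hM G L' ψ₀ ψ' hSB).2 y hy] at hne
          exact hd.min y hy hne }
  have h2 : ∀ g : G, DefL p M (cjS g L) (cjF g ψ) (cjS g D) (g * x * g⁻¹) := by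
    intro g
    exact (hCJG G M p g L).2.2.2.1 ψ D x hD
  refine ⟨fun ψ' hSB => h1 ψ' L D ψ x hD hSB, h2, ?_⟩
  intro _ l hl
  obtain ⟨e1, e2⟩ := (hCJG G M p l L).2.2.2.2.2.1 hl ψ
  have e3 : cjS l L = L := e2
  have h3 := h2 l
  rw [e3] at h3
  exact h1 ψ L _ _ _ h3 e1

end Pool.Agent.ZB
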