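import Pool.Agent.helper7.ZB.SpecT

set_option autoImplicit false

namespace Pool.Agent.ZB

open Pool.Agent.helper58.DC Pool.Agent.DI Pool.Agent.GR Pool.Agent.OB Pool.Agent.DR Pool.Agent.FI Pool.Agent.FI3 Pool.Agent.FI4 Pool.Agent.FI4I Pool.Agent.LE Pool.Agent.L5 Pool.Agent.NAB

theorem ZUH_inv {G : Type} [Group G] (l : G) (Q : Subgroup G) : cjS l⁻¹ (cjS l Q) = Q := by
  ext x
  rw [mem_cjS, mem_cjS]
  have e : l⁻¹ * (l⁻¹⁻¹ * x * l⁻¹) * l = x := by group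
  rw [e]

theorem ZUH (hZHE : ZHE_stmt) (hZE2 : ZE2_stmt) : ZUH_stmt := by
  intro p κ M hM G _ _ L K hKL ψ hψ D x hD hK η hη hSB Q y hQ hloc
  obtain ⟨l, hl, h1, h2⟩ := hZHE p M hM G L K hKL ψ hψ D x hD η hη hSB Q y hQ hloc
  have h3 : KZ p κ (cjS l Q) := (hZE2 p hM.pr κ G D hK).2.1 _ h1 h2
  have h4 : EQ p κ.s (cjS l Q) = EQ p κ.s D := (hZE2 p hM.pr κ G D hK).1 _ h3 h1
  have h5 := ((hZE2 p hM.pr κ G (cjS l Q) h3).2.2 l⁻¹).1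
  rw [ZUH_inv] at h5
  have h6 := ((hZE2 p hM.pr κ G Q h5).2.2 l).2
  exact ⟨h5, l, hl, h1, by rw [← h4, h6]⟩

end Pool.Agent.ZB
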