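import Pool.Agent.helper37.NA.All
import Pool.Agent.helper9.ZB.ZE1
import Pool.Agent.helper14.ZB.ZE2
import Pool.Agent.helper7.ZB.ZE3
import Pool.Agent.helper89.ZB.ZGP
import Pool.Agent.helper7.ZB.ZUB
import Pool.Agent.helper73.ZB.ZUE
import Pool.Agent.helper7.ZB.ZUH
import Pool.Agent.helper4.ZB.ZUX
import Pool.Agent.helper43.ZB.ZXU
import Pool.Agent.helper96.ZB.ZQU
import Pool.Agent.helper40.ZB.ZTK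
import Pool.Agent.helper92.ZB.ZTI
import Pool.Agent.helper78.ZB.ZTC
import Pool.Agent.helper66.ZB.ZTL
import Pool.Agent.helper7.ZB.ZTP
import Pool.Agent.helper24.ZB.ZLC
import Pool.Agent.helper24.ZB.ZTM
import Pool.Agent.helper90.ZB.ZTN
import Pool.Agent.helper20.ZB.ZDD
import Pool.Agent.helper9.ZB.ZQK
import Pool.Agent.helper23.ZB.ZDB
import Pool.Agent.helper24.ZB.ZDV
import Pool.Agent.helper49.ZB.ZUQ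
import Pool.Agent.helper87.ZB.ZFA
import Pool.Agent.helper7.ZB.ZFS
import Pool.Agent.helper24.ZB.ZFE
import Pool.Agent.helper24.ZB.ZMF
import Pool.Agent.helper7.ZB.ZMN
import Pool.Agent.helper4.ZB.ZFN
import Pool.Agent.helper7.ZB.ZFD

/-!
# MP_baa4d7_al, THEOREM ZB, block T: all rows together (specification: `helper7/ZB/SpecT`)
-/

set_option autoImplicit false

namespace Pool.Agent.ZB.All

open Pool.Agent.helper58.DC Pool.Agent.DI Pool.Agent.GR Pool.Agent.OB Pool.Agent.DR Pool.Agent.FI Pool.Agent.FI3 Pool.Agent.FI4 Pool.Agent.FI4I Pool.Agent.LE Pool.Agent.L5 Pool.Agent.NAB Pool.Agent.NAB.All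

theorem AllT (zZHE : ZHE_stmt) (zZQD : ZQD_stmt) (zZBC : ZBC_stmt) : ZMN_stmt ∧ ZFN_stmt ∧ ZFD_stmt := by
  have zZE1 : ZE1_stmt := ZB.ZE1
  have zZE2 : ZE2_stmt := ZB.ZE2 zZE1
  have zZE3 : ZE3_stmt := ZB.ZE3
  have zZGP : ZGP_stmt := ZB.ZGP
  have zZUB : ZUB_stmt := ZB.ZUB FI.AllA.dSBI FI.AllA.dCJG
  have zZUE : ZUE_stmt := ZB.ZUE FI.AllA.dDUN zZE2
  have zZUH : ZUH_stmt := ZB.ZUH zZHE zZE2
  have zZUX : ZUX_stmt := ZB.ZUX DR.All.rCFA aNFV FI.AllA.dEXB FI.AllA.dTRN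
  have zZXU : ZXU_stmt := ZB.ZXU zZUH zZE1 zZE2 FI.AllA.dDEX FI.AllA.dDGL FI.AllA.dEXB FI.AllA.dCNTL FI.AllA.dTRN
  have zZQU : ZQU_stmt := ZB.ZQU zZHE zZQD zZUB zZUH aNQ5 zZE1 zZE2 FI.AllA.dTRN
  have zZTK : ZTK_stmt := ZB.ZTK FI4I.AllI.iTR2 FI4I.AllI.iTR3
  have zZTI : ZTI_stmt := ZB.ZTI zZE1 zZTK FI4I.AllI.iTR1 FI4I.AllI.iTR2 FI4I.AllI.iTR3 FI4I.AllI.iTR4 xTRE FI.AllA.dTPR
  have zZTC : ZTC_stmt := ZB.ZTC zZUH zZE1 zZBC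
  have zZTL : ZTL_stmt := ZB.ZTL DR.All.rCFA aNFV FI.AllA.dCNTL
  have zZTP : ZTP_stmt := ZB.ZTP zZUX FI.AllA.dDEX zZUH zZE1 FI.AllA.dTRN FI.AllA.dTPR
  have zZLC : ZLC_stmt := ZB.ZLC aNPA zZTI zZTC zZUH zZUX zZE1 FI.AllA.dDEX FI.AllA.dTRN FI.AllA.dTPR FI4.AllK.kLBN FI.AllC.cFBC GR.All.dB2
  have zZTM : ZTM_stmt := ZB.ZTM aNTG FI.AllC.cFNO zZTC zZTP zZTL zZBC FI4.AllK.kLBN zZE1 FI.AllA.dTPR
  have zZTN : ZTN_stmt := ZB.ZTN zZTM zZLC zZTL FI.AllA.dTPR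
  have zZDD : ZDD_stmt := ZB.ZDD FI.AllA.dDUN FI.AllA.dSYL FI.AllA.dDCM FI.AllA.dBLE FI.AllA.dCFX FI4.AllK.kKG1 FI4.AllK.kKIN
  have zZQK : ZQK_stmt := ZB.ZQK zZDD FI.AllA.dDEX FI4.AllK.kKMG FI.AllA.dCLS FI.AllA.dTPR FI.AllA.dSBI
  have zZDB : ZDB_stmt := ZB.ZDB FI.AllA.dDEX aNUC xNDX FI.AllA.dTPR FI.AllA.dCLS
  have zZDV : ZDV_stmt := ZB.ZDV zZDB zZQK aNKC aNKB FI4.AllK.kKG1 FI4.AllK.kKLE FI4.AllK.kKIN FI4.AllK.kKBL FI4.AllK.kKUN GR.All.dBCL GR.All.dIM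
  have zZUQ : ZUQ_stmt := ZB.ZUQ zZE1 zZE2 zZE3 FI.AllA.dDUN aNDG FI.AllA.dTPR
  have zZFA : ZFA_stmt := ZB.ZFA aNFV zZUH zZUB zZE2 DR.All.rCFA FI.AllA.dDEX FI.AllA.dCNTL FI.AllA.dCJG FI.AllA.dTPR
  have zZFS : ZFS_stmt := ZB.ZFS zZUB zZUE zZE2 FI.AllA.dCJG
  have zZFE : ZFE_stmt := ZB.ZFE zZUH zZUB zZUE zZE1 zZE2 FI.AllA.dDEX FI.AllA.dCNTL DR.All.rCFA aNFV aNOB FI.AllA.dTRN FI.AllA.dCJG FI.AllA.dTPR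
  have zZMF : ZMF_stmt := ZB.ZMF aNOP aNFR aNEG aNDG zZE1 zZFA zZFS zZFE FI.AllA.dTPR
  have zZMN : ZMN_stmt := ZB.ZMN zZTN zZDV zZUQ zZMF zZXU zZQU FI4.AllK.kLBN FI.AllA.dTPR
  have zZFN : ZFN_stmt := ZB.ZFN zZTN zZMN FI.AllC.cFT0 FI4.AllK.kKRG GR.All.dB2 zZE1
  have zZFD : ZFD_stmt := ZB.ZFD zZFN zZGP FI.AllA.dCLS FI.AllA.dTPR
  exact ⟨zZMN, zZFN, zZFD⟩

end Pool.Agent.ZB.All
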