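import Pool.Agent.helper58.ZB.SpecN
import Pool.Agent.helper59.FI4.SpecI

set_option autoImplicit false

namespace Pool.Agent.GB

open Pool.Agent.helper58.DC Pool.Agent.DI Pool.Agent.GR Pool.Agent.OB Pool.Agent.DR Pool.Agent.FI Pool.Agent.FI3 Pool.Agent.FI4 Pool.Agent.FI4I Pool.Agent.LE Pool.Agent.BR

theorem BLT_sub {G : Type} [Group G] {N Q K : Subgroup G} (h : Q ≤ K) : Q.subgroupOf N ≤ K.subgroupOf N := by
  intro q hq
  exact Subgroup.mem_subgroupOf.2 (h (Subgroup.mem_subgroupOf.1 hq))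

theorem BLT (hTR1 : TR1_stmt) (hTR2 : TR2_stmt) (hTR3 : TR3_stmt)
    (hTRE : Pool.Agent.L5.TRE_stmt) (hTPR : Pool.Agent.FI.TPR_stmt) (hCLS : CLS_stmt) : BLT_stmt := by
  intro p hB M hM a r hr G _ _ N D Z x ψ hψ hD hZD hZc hcard hrk
  have hDN : D ≤ N := hD.le.trans inf_le_left
  have hZN : Z ≤ N := hZD.trans hDN
  have hη : ∀ y, y ∉ N → ψ y = 0 := fun y hy => hψ.1 y hy
  obtain ⟨h21, -, h23, -⟩ := hTR2 G M N
  obtain ⟨h31, h32, h33, h34, -⟩ := hTR3 p G N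
  have hNN : N.subgroupOf N = ⊤ := Subgroup.subgroupOf_self N
  have hirr : rN N ψ ∈ IrrOn (N.subgroupOf N) := ((hTR1 G N N le_rfl).1 ψ hη).1 hψ
  rw [hNN] at hirr
  have hT := hTPR p M hM N
  have hirr' : rN N ψ ∈ Irr N := by
    rw [hT.1] at hirr
    exact hirr
  have hcc : ∀ y : N, cc (rN N ψ) (cls (⊤ : Subgroup N) y) = cc ψ (cls N (y : G)) := by
    intro y
    rw [← hNN, ← h23 N le_rfl y, h21 _ _ hη]
  have hpp : ∀ y : N, pp p (Cz (⊤ : Subgroup N) y) = pp p (Cz N (y : G)) := by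
    intro y
    rw [← hNN]
    exact (h33 N le_rfl y).2
  have hom : ∀ y : N, omega (rN N ψ) y = cc ψ (cls N (y : G)) := by
    intro y
    rw [(hCLS N ⊤ y).2.2.2.2.2.2.2.1 (rN N ψ), hcc]
  have hCz : ∀ y : N, Cz (⊤ : Subgroup N) y = Subgroup.centralizer {y} := hT.2.2.2.2
  have hDA : DefAt p M (rN N ψ) (D.subgroupOf N) (⟨x, hD.mem⟩ : N) := by
    refine ⟨((h34 (⟨x, hD.mem⟩ : N)).1).2 hD.reg, ?_, ?_, (h32 D hDN).2.2 hD.pg, ?_, ?_⟩
    · rw [hom]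
      exact hD.ne
    · rw [← hCz, ← hNN, (h33 N le_rfl _).1]
      exact BLT_sub hD.le
    · rw [← hCz, hpp, (h32 D hDN).1]
      exact hD.card
    · intro y hy
      rw [hom] at hy
      rw [← hCz, hpp, (h32 D hDN).1]
      exact hD.min y y.2 hy
  have hset : ({u | u ∈ Z.subgroupOf N ∧ u ^ p = 1} : Set N).ncard ≤ p ^ r := by
    refine le_trans ?_ hrk
    rw [← Set.ncard_image_of_injective _ N.subtype_injective]
    refine Set.ncard_le_ncard ?_ (Set.toFinite _)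
    rintro _ ⟨u, ⟨hu1, hu2⟩, rfl⟩
    refine ⟨Subgroup.mem_subgroupOf.1 hu1, ?_⟩
    rw [← map_pow, hu2, map_one]
  have hZc' : Z.subgroupOf N ≤ cz (D.subgroupOf N) := by
    rw [(h31 D hDN).1]
    exact BLT_sub hZc
  obtain ⟨l, hl, h1, h2⟩ := hB M hM a r hr N (D.subgroupOf N) (Z.subgroupOf N) _ (rN N ψ) hirr' hDA (BLT_sub hZD) hZc'
    (by rw [(h32 D hDN).1, (h32 Z hZN).1]; exact hcard) hset
  have hLL : LL p M (rN N ψ) (⊤ : Subgroup N) = Pool.Agent.L5.Le p M (⊤ : Subgroup N) (rN N ψ) := by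
    unfold LL Pool.Agent.L5.Le
    rw [hT.2.2.2.1]
    rfl
  have hLe : Pool.Agent.L5.Le p M (⊤ : Subgroup N) (rN N ψ) = Pool.Agent.L5.Le p M N ψ := by
    rw [← hNN]
    exact hTRE p M hM G N N le_rfl ψ hη
  refine ⟨l, ?_, h1, h2⟩
  rw [← hLe, ← hLL, hl]

end Pool.Agent.GB
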