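import Mathlib

/-!
# Blocks whose defect group has a central subgroup of bounded index and rank: definitions for the statement
-/

set_option autoImplicit false

namespace Pool.Agent.ZBS

variable {G : Type} [Group G]

/-- The exponent of the bound for `l(B)`. -/
def boundExp (p a r : ℕ) : ℕ := (r + 2) * (r * (r + 1) / 2 + 2 * (a + 2 * a * r)) + r * ((if p = 2 then 2 else 1) - 1)

/-- `Z` is a central subgroup of `D`, of index at most `p ^ a`, with at most `p ^ r` elements of order dividing `p`
(the rank of `Z` is at most `r`), `1 ≤ r`. -/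
structure CentralRank (p a r : ℕ) (D Z : Subgroup G) : Prop where
  pos : 1 ≤ r
  le : Z ≤ D
  central : ∀ z ∈ Z, ∀ x ∈ D, z * x = x * z
  index : Nat.card D ≤ p ^ a * Nat.card Z
  rank : {u : G | u ∈ Z ∧ u ^ p = 1}.ncard ≤ p ^ r

/-- `D` has such a central subgroup `Z`, and the exponent of `Z` is larger than `p ^ (r (a + w))`, `w = boundExp p a r`. -/
def LargeCentre (p a r : ℕ) (D : Subgroup G) : Prop :=
  ∃ Z : Subgroup G, CentralRank p a r D Z ∧ ∃ z ∈ Z, z ^ p ^ (r * (a + boundExp p a r)) ≠ 1

end Pool.Agent.ZBS
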