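import Pool.Agent.helper7.ZB.SpecT
import Pool.Agent.helper68.GB.Spec

set_option autoImplicit false

namespace Pool.Agent.ZB

open Pool.Agent.helper58.DC Pool.Agent.DI Pool.Agent.GR Pool.Agent.OB Pool.Agent.DR Pool.Agent.FI Pool.Agent.FI3 Pool.Agent.FI4 Pool.Agent.FI4I Pool.Agent.LE Pool.Agent.L5 Pool.Agent.NAB

/-- Heredity, from helper68's row. -/
theorem ZHE (h : Pool.Agent.GB.ZHE_stmt) : ZHE_stmt := by
  intro p M hM G _ _ L K hKL ψ hψ D x hD η hη hS Q y hQ hloc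
  exact (h p M hM G L D x ψ hψ hD K Q y hKL η hη hS hQ hloc).1

theorem ZQD (h : Pool.Agent.GB.ZHE_stmt) : ZQD_stmt := by
  intro p M hM G _ _ L K hKL ψ hψ D x hD η hη hS Q y hQ hloc hl
  exact (h p M hM G L D x ψ hψ hD K Q y hKL η hη hS hQ hloc).2 hl

end Pool.Agent.ZB
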