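import Pool.Agent.helper7.ZB.DefsZ
import Pool.Agent.helper7.ZB.AllT
import Pool.Agent.helper7.ZB.ZHE
import Pool.Agent.helper79.ZB.ZBC
import Pool.Agent.helper58.ZB.AllN
import Pool.Agent.helper59.ZB.AllH
import Pool.Agent.helper37.ND.XD
import Pool.Agent.helper12.LE.AllL

/-!
# MP_baa4d7_al, THEOREM ZB: the final theorem
-/

set_option autoImplicit false

namespace Pool.Agent.ZBS

open Pool.Agent.helper58.DC Pool.Agent.DI Pool.Agent.GR Pool.Agent.OB Pool.Agent.DR Pool.Agent.FI Pool.Agent.FI3 Pool.Agent.FI4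
open Pool.Agent.ZB (Om Pm BDK KZ)

theorem boundExp_eq (p a r : ℕ) : boundExp p a r = Pool.Agent.GB.FZ p a r := rfl

theorem Om_zero {G : Type} [Group G] (p : ℕ) (Z : Subgroup G) : Om p 0 Z = {u | u ∈ Z ∧ u ^ p = 1} := by
  ext y
  constructor
  · rintro ⟨k1, z, hz, k2⟩
    rw [pow_zero, pow_one] at k2
    rw [← k2]
    rw [← k2] at k1
    exact ⟨hz, k1⟩
  · rintro ⟨k1, k2⟩
    refine ⟨k2, y, k1, ?_⟩
    rw [pow_zero, pow_one]

/-- The bound for the blocks in the class `KZ`. -/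
theorem bdk {p : ℕ} (hB : Pool.Agent.GB.BLP p) {M : Ideal (integralClosure ℤ ℂ)} (hS : Setup p M) (a r : ℕ) (hr : 1 ≤ r)
    (κ : Pm) (ha : κ.a = a) (hκ : κ.r = r) : BDK p κ M (boundExp p a r) := by
  intro G _ _ L ψ hψ D y hD hK
  obtain ⟨-, -, -, Z, hZ, hc, hcard, hrk, -, -⟩ := hK
  rw [Om_zero] at hrk
  refine hB M hS a r hr G L D Z y ψ hψ hD hZ ?_ (by rw [← ha]; exact hcard) (by rw [← hκ]; exact hrk)
  intro z hz
  exact Subgroup.mem_centralizer_iff.2 fun x hx => (hc z hz x hx).symm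

/-- `E = G`. -/
theorem dade0 {p : ℕ} (hZHE : Pool.Agent.GB.ZHE_stmt) (hB : Pool.Agent.GB.BLP p) {M : Ideal (integralClosure ℤ ℂ)} (hS : Setup p M)
    (a r : ℕ) (G : Type) [Group G] [Finite G] (hO : IsOp p (⊤ : Subgroup G) ⊥) (χ : G → ℂ) (hχ : χ ∈ Irr G) (D : Subgroup G)
    (hD : Pool.Agent.MAP.DefectGroup p M χ D) (hL : LargeCentre p a r D) : ∑ᶠ d : ℤ, altSum (trivE G) p M χ d ⊤ = 0 := by
  have hZUB : Pool.Agent.ZB.ZUB_stmt := Pool.Agent.ZB.ZUB Pool.Agent.FI.AllA.dSBI Pool.Agent.FI.AllA.dCJG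
  have hZE2 : Pool.Agent.ZB.ZE2_stmt := Pool.Agent.ZB.ZE2 Pool.Agent.ZB.ZE1
  have hZBC : Pool.Agent.ZB.ZBC_stmt := Pool.Agent.ZB.ZBC hZUB hZE2 Pool.Agent.FI.AllA.dCJG Pool.Agent.FI.AllQ.qQCJ
    Pool.Agent.FI.AllA.dTRN Pool.Agent.GR.All.dB2
  have h := (Pool.Agent.ZB.All.AllT (Pool.Agent.ZB.ZHE hZHE) (Pool.Agent.ZB.ZQD hZHE) hZBC).2.2
  obtain ⟨Z, hZ, hz⟩ := hL
  exact h p M hS a r (boundExp p a r) (fun κ h1 h2 _ => bdk hB hS a r hZ.pos κ h1 h2) G χ hχ D hD Z hZ.le hZ.central hZ.index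
    hZ.rank hz hO

theorem her (p a r : ℕ) : Pool.Agent.XD.Her (fun G _ D => LargeCentre p a r (G := G) D) := by
  rintro G E _ _ i hi D ⟨Z, hZ, z, hz, hz1⟩
  have hcard : ∀ H : Subgroup G, Nat.card (H.map i) = Nat.card H := fun H =>
    (Nat.card_congr (H.equivMapOfInjective i hi).toEquiv).symm
  refine ⟨Z.map i, ⟨hZ.pos, Subgroup.map_mono hZ.le, ?_, ?_, ?_⟩, i z, ⟨z, hz, rfl⟩, ?_⟩
  · rintro _ ⟨y, hy, rfl⟩ _ ⟨x, hx, rfl⟩
    rw [← map_mul, ← map_mul, hZ.central y hy x hx]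
  · rw [hcard, hcard]
    exact hZ.index
  · have h1 : {u : E | u ∈ Z.map i ∧ u ^ p = 1} = i '' {u : G | u ∈ Z ∧ u ^ p = 1} := by
      ext u
      constructor
      · rintro ⟨⟨y, hy, rfl⟩, h2⟩
        refine ⟨y, ⟨hy, hi ?_⟩, rfl⟩
        rw [map_pow, h2, map_one]
      · rintro ⟨y, ⟨hy, h2⟩, rfl⟩
        refine ⟨⟨y, hy, rfl⟩, ?_⟩
        rw [← map_pow, h2, map_one]
    rw [h1, Set.ncard_image_of_injective _ hi]
    exact hZ.rank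
  · intro h
    rw [← map_pow] at h
    exact hz1 (hi (by rw [h, map_one]))

/-- THEOREM ZB, (b). -/
theorem dadeX (hZHE : Pool.Agent.GB.ZHE_stmt) (hBLP : ∀ p, Pool.Agent.GB.BLP p) (p : ℕ) (hpr : p.Prime)
    (M : Ideal (integralClosure ℤ ℂ)) (hM : M.IsMaximal)
    (hp : (p : integralClosure ℤ ℂ) ∈ M) (G : Type) [Group G] [Finite G] (hG : IsOp p (⊤ : Subgroup G) ⊥)
    (χ : G → ℂ) (hχ : χ ∈ Irr G) (D : Subgroup G) (hD : Pool.Agent.MAP.DefectGroup p M χ D) (a r : ℕ) (hL : LargeCentre p a r D)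
    (E A : Type) [Group E] [Group A] [Finite E] (X : Extension G E A) (s : A) (n : ℕ)
    (hsn : s ^ n ∈ Pool.Agent.BQ.AI X M χ) (hpn : ¬ p ∣ n)
    (hs : ∀ a ∈ Pool.Agent.BQ.AB X M χ, ∃ k : ℤ, s ^ k * a ∈ Pool.Agent.BQ.AI X M χ) (U : Subgroup A) :
    ∑ᶠ d : ℤ, altSum X p M χ d U = 0 := by
  have hS : Setup p M := ⟨hpr, hM, hp⟩
  exact Pool.Agent.XD.main hS Pool.Agent.XD.Fun_sum (her p a r)
    (fun G' _ _ hO' χ' hχ' D' hD' hP' => dade0 hZHE (hBLP p) hS a r G' hO' χ' hχ' D' hD' hP')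
    G hG χ hχ D hD hL E A X s n hsn hpn hs U

/-- THEOREM ZB, (a): the bound. -/
theorem boundX (hBDP : ∀ p, Pool.Agent.GB.BDP p) (p : ℕ) (hpr : p.Prime)
    (M : Ideal (integralClosure ℤ ℂ)) (hM : M.IsMaximal)
    (hp : (p : integralClosure ℤ ℂ) ∈ M) (G : Type) [Group G] [Finite G]
    (χ : G → ℂ) (hχ : χ ∈ Irr G) (D : Subgroup G) (hD : Pool.Agent.MAP.DefectGroup p M χ D) (a r : ℕ) (Z : Subgroup G)
    (hZ : CentralRank p a r D Z) :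
    1 ≤ Pool.Agent.FIV.brauerNumber p M χ ⊤ ∧ Pool.Agent.FIV.brauerNumber p M χ ⊤ ≤ p ^ boundExp p a r := by
  have hS : Setup p M := ⟨hpr, hM, hp⟩
  obtain ⟨x, hx⟩ := Pool.Agent.XD.defAt_of hS hχ hD
  have hZc : Z ≤ cz D := by
    intro z hz
    exact Subgroup.mem_centralizer_iff.2 fun y hy => (hZ.central z hz y hy).symm
  obtain ⟨l, h1, h2, h3⟩ := hBDP p M hS a r hZ.pos G D Z x χ hχ hx hZ.le hZc hZ.index hZ.rank
  have h4 := Pool.Agent.LE.AllL.aXL p M hS G χ ⊤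
  have hb : Pool.Agent.FIV.brauerNumber p M χ ⊤ = Pool.Agent.FIW.brauerNumber p M χ ⊤ := rfl
  have h5 : Pool.Agent.FIW.brauerNumber p M χ ⊤ = l := by
    rw [h1] at h4
    exact_mod_cast h4.symm
  rw [hb, h5]
  exact ⟨h2, h3⟩

end Pool.Agent.ZBS
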